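import Mathlib

/-!
# Counting points of a finite grid on which many polynomials in few variables vanish

Uniform version of `GenTuple.Comb.cnt_le`: the constant depends only on the degree, the number of
variables and `m`, not on the field, the set and the grid.
-/

set_option autoImplicit false

namespace Pool.Agent.QGT

open MvPolynomial

/-- a nonzero polynomial of degree at most `N` in the variables of `A` vanishes on `B` -/
def CovU {K σ : Type} [Field K] (N : ℕ) (B : Set (σ → K)) (A : Finset σ) : Prop :=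
  ∃ f : MvPolynomial σ K, f ≠ 0 ∧ f.totalDegree ≤ N ∧ f.vars ⊆ A ∧ ∀ l ∈ B, eval l f = 0

/-- the number of points of `B` in the grid `S ^ σ` -/
noncomputable def cntU {K σ : Type} [Fintype σ] (S : Finset K) (B : Set (σ → K)) : ℕ := by
  classical
  exact ((Fintype.piFinset fun _ : σ => S).filter fun l => l ∈ B).card

namespace CntU

theorem mono {K σ : Type} [Field K] {N : ℕ} {B B' : Set (σ → K)} (h : B' ⊆ B) {A : Finset σ}
    (hc : CovU N B A) : CovU N B' A := by
  obtain ⟨f, h1, h2, h3, h4⟩ := hc
  exact ⟨f, h1, h2, h3, fun l hl => h4 l (h hl)⟩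

/-- splitting off one variable -/
theorem split_var {K σ : Type} [Field K] [DecidableEq σ] (f : MvPolynomial σ K) (hf : f ≠ 0)
    (N : ℕ) (hN : f.totalDegree ≤ N) (i : σ) (A : Finset σ) (hv : f.vars ⊆ insert i A) :
    ∃ h : ℕ → MvPolynomial σ K, (∀ j, (h j).vars ⊆ A) ∧ (∀ j, (h j).totalDegree ≤ N) ∧
      f = ∑ j ∈ Finset.range (N + 1), X i ^ j * h j ∧ ∃ j ≤ N, h j ≠ 0 := by
  classical
  let h : ℕ → MvPolynomial σ K := fun j =>
    ∑ α ∈ f.support.filter fun α => α i = j, monomial (α.erase i) (f.coeff α)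
  have hdeg : ∀ α ∈ f.support, (α.sum fun _ n => n) ≤ N := fun α hα => (le_totalDegree hα).trans hN
  have hle : ∀ (α : σ →₀ ℕ), α i ≤ α.sum fun _ n => n := by
    intro α
    by_cases h1 : i ∈ α.support
    · exact Finset.single_le_sum (f := fun q => α q) (fun _ _ => Nat.zero_le _) h1
    · rw [Finsupp.notMem_support_iff.1 h1]
      exact Nat.zero_le _
  have hD : ∀ α ∈ f.support, α i ∈ Finset.range (N + 1) := by
    intro α hα
    rw [Finset.mem_range, Nat.lt_succ_iff]
    exact (hle α).trans (hdeg α hα)
  have hsum : f = ∑ j ∈ Finset.range (N + 1), X i ^ j * h j := by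
    conv_lhs => rw [f.as_sum]
    rw [← Finset.sum_fiberwise_of_maps_to hD]
    refine Finset.sum_congr rfl fun j _ => ?_
    simp only [h]
    rw [Finset.mul_sum]
    refine Finset.sum_congr rfl fun α hα => ?_
    have hαi : α i = j := (Finset.mem_filter.1 hα).2
    rw [X_pow_eq_monomial, monomial_mul, one_mul, ← hαi, Finsupp.single_add_erase]
  refine ⟨h, ?_, ?_, hsum, ?_⟩
  · intro j
    refine (vars_sum_subset _ _).trans ?_
    intro q hq
    rw [Finset.mem_biUnion] at hq
    obtain ⟨α, hα, hq⟩ := hq
    have hαs := (Finset.mem_filter.1 hα).1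
    have h1 : q ∈ (α.erase i).support := by
      have h2 := vars_monomial (s := α.erase i) (mem_support_iff.1 hαs)
      rw [h2] at hq
      exact hq
    rw [Finsupp.support_erase, Finset.mem_erase] at h1
    have h3 : q ∈ f.vars := (mem_vars_iff_mem_support q).2 ⟨α, hαs, h1.2⟩
    have h4 := hv h3
    rw [Finset.mem_insert] at h4
    exact h4.resolve_left h1.1
  · intro j
    refine (totalDegree_finsetSum _ _).trans (Finset.sup_le fun α hα => ?_)
    refine (totalDegree_monomial_le _ _).trans (le_trans ?_ (hdeg α (Finset.mem_filter.1 hα).1))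
    unfold Finsupp.sum
    rw [Finsupp.support_erase]
    refine (Finset.sum_le_sum fun q hq => ?_).trans
      (Finset.sum_le_sum_of_subset (Finset.erase_subset i α.support))
    rw [Finsupp.erase_ne (Finset.ne_of_mem_erase hq)]
    exact le_rfl
  · by_contra hcon
    push Not at hcon
    apply hf
    rw [hsum]
    refine Finset.sum_eq_zero fun j hj => ?_
    rw [hcon j (by rw [Finset.mem_range] at hj; omega), mul_zero]

theorem eval_congr_vars {K σ : Type} [Field K] (f : MvPolynomial σ K) (A : Finset σ)
    (hv : f.vars ⊆ A) (a b : σ → K) (hab : ∀ q ∈ A, a q = b q) : eval a f = eval b f := by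
  classical
  rw [eval_eq, eval_eq]
  refine Finset.sum_congr rfl fun α hα => ?_
  congr 1
  refine Finset.prod_congr rfl fun q hq => ?_
  rw [hab q (hv ((mem_vars_iff_mem_support q).2 ⟨α, hα, hq⟩))]

/-- the points over which all fibres are small -/
theorem fiber {K σ : Type} [Field K] [Fintype σ] (N : ℕ) (B : Set (σ → K)) (A : Finset σ)
    (h : σ → ℕ → MvPolynomial σ K) (hv : ∀ i ∉ A, ∀ j, (h i j).vars ⊆ A)
    (hz : ∀ i ∉ A, ∀ l ∈ B, eval l (∑ j ∈ Finset.range (N + 1), X i ^ j * h i j) = 0)
    (hn : ∀ i ∉ A, ∀ l ∈ B, ∃ j ≤ N, eval l (h i j) ≠ 0) (S : Finset K) :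
    cntU S B ≤ (N + 1) ^ Fintype.card σ * S.card ^ A.card := by
  classical
  set S' := (Fintype.piFinset fun _ : σ => S).filter fun l => l ∈ B with hS
  have hcnt : cntU S B = S'.card := by
    rw [hS, cntU]
  rw [hcnt]
  let ρ : (σ → K) → (A → K) := fun l a => l a
  have h1 := Finset.card_le_mul_card_image (f := ρ) S' ((N + 1) ^ Fintype.card σ) ?_
  · refine h1.trans (Nat.mul_le_mul_left _ ?_)
    have h2 : S'.image ρ ⊆ Fintype.piFinset fun _ : A => S := by
      intro m hm
      obtain ⟨l, hl, rfl⟩ := Finset.mem_image.1 hm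
      rw [Fintype.mem_piFinset]
      intro a
      have h3 := (Finset.mem_filter.1 hl).1
      rw [Fintype.mem_piFinset] at h3
      exact h3 a
    refine (Finset.card_le_card h2).trans (le_of_eq ?_)
    rw [Fintype.card_piFinset, Finset.prod_const, Finset.card_univ, Fintype.card_coe]
  · intro m hm
    obtain ⟨l0, hl0, hl0m⟩ := Finset.mem_image.1 hm
    have hl0B : l0 ∈ B := (Finset.mem_filter.1 hl0).2
    -- the one variable polynomials
    let Q : σ → Polynomial K := fun i => ∑ j ∈ Finset.range (N + 1),
      Polynomial.monomial j (eval l0 (h i j))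
    have hQdeg : ∀ i, (Q i).natDegree ≤ N := by
      intro i
      refine Polynomial.natDegree_sum_le_of_forall_le _ _ fun j hj => ?_
      refine (Polynomial.natDegree_monomial_le _).trans ?_
      rw [Finset.mem_range] at hj
      omega
    have hQ0 : ∀ i ∉ A, Q i ≠ 0 := by
      intro i hi hQ
      obtain ⟨j, hj, hjn⟩ := hn i hi l0 hl0B
      apply hjn
      have h3 := congrArg (fun q => q.coeff j) hQ
      simp only [Q, Polynomial.finsetSum_coeff, Polynomial.coeff_monomial, Polynomial.coeff_zero] at h3
      rw [Finset.sum_ite_eq', if_pos (Finset.mem_range.2 (by omega))] at h3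
      exact h3
    let R : σ → Finset K := fun i => if i ∈ A then {l0 i} else (Q i).roots.toFinset
    have hRcard : ∀ i, (R i).card ≤ N + 1 := by
      intro i
      by_cases hi : i ∈ A
      · simp only [R, if_pos hi, Finset.card_singleton]
        omega
      · simp only [R, if_neg hi]
        refine (Multiset.toFinset_card_le _).trans ?_
        refine (Polynomial.card_roots' _).trans ?_
        exact (hQdeg i).trans (Nat.le_succ _)
    have hsub : (S'.filter fun l => ρ l = m) ⊆ Fintype.piFinset R := by
      intro l hl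
      obtain ⟨hlS, hlm⟩ := Finset.mem_filter.1 hl
      have hlB : l ∈ B := (Finset.mem_filter.1 hlS).2
      have heq : ∀ q ∈ A, l q = l0 q := by
        intro q hq
        have h3 : ρ l = ρ l0 := hlm.trans hl0m.symm
        exact congrFun h3 ⟨q, hq⟩
      rw [Fintype.mem_piFinset]
      intro i
      by_cases hi : i ∈ A
      · simp only [R, if_pos hi, Finset.mem_singleton]
        exact heq i hi
      · simp only [R, if_neg hi, Multiset.mem_toFinset]
        rw [Polynomial.mem_roots (hQ0 i hi), Polynomial.IsRoot.def]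
        have h3 := hz i hi l hlB
        rw [map_sum] at h3
        simp only [Q, Polynomial.eval_finsetSum, Polynomial.eval_monomial]
        rw [← h3]
        refine Finset.sum_congr rfl fun j _ => ?_
        rw [map_mul, map_pow, eval_X, mul_comm]
        congr 1
        exact eval_congr_vars _ A (hv i hi j) _ _ fun q hq => (heq q hq).symm
    refine (Finset.card_le_card hsub).trans ?_
    rw [Fintype.card_piFinset]
    refine (Finset.prod_le_prod (fun _ _ => Nat.zero_le _) fun i _ => hRcard i).trans (le_of_eq ?_)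
    rw [Finset.prod_const, Finset.card_univ]

theorem le_add {K σ : Type} [Fintype σ] (B B0 : Set (σ → K)) (s : Finset σ)
    (Bi : σ → Set (σ → K)) (h : B ⊆ B0 ∪ ⋃ i ∈ s, Bi i) (S : Finset K) :
    cntU S B ≤ cntU S B0 + ∑ i ∈ s, cntU S (Bi i) := by
  classical
  unfold cntU
  have h1 : ((Fintype.piFinset fun _ : σ => S).filter fun l => l ∈ B) ⊆
      ((Fintype.piFinset fun _ : σ => S).filter fun l => l ∈ B0) ∪
      s.biUnion fun i => (Fintype.piFinset fun _ : σ => S).filter fun l => l ∈ Bi i := by
    intro l hl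
    obtain ⟨hl1, hl2⟩ := Finset.mem_filter.1 hl
    rcases h hl2 with h2 | h2
    · exact Finset.mem_union_left _ (Finset.mem_filter.2 ⟨hl1, h2⟩)
    · rw [Set.mem_iUnion₂] at h2
      obtain ⟨i, hi, h3⟩ := h2
      exact Finset.mem_union_right _ (Finset.mem_biUnion.2 ⟨i, hi, Finset.mem_filter.2 ⟨hl1, h3⟩⟩)
  exact (Finset.card_le_card h1).trans ((Finset.card_union_le _ _).trans
    (Nat.add_le_add_left Finset.card_biUnion_le _))

end CntU

open CntU

/-- **the counting theorem, uniform**: if for every set `A` of `m` variables a nonzero polynomial of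
degree at most `N` in the variables of `A` vanishes on `B`, then `B` has at most `C |S| ^ (m - 1)`
points in every grid `S ^ σ`, `C = C (σ, N, m)`. -/
theorem cntU_le (σ : Type) [Fintype σ] (N m : ℕ) : ∃ C : ℕ, ∀ (K : Type) [Field K]
    (B : Set (σ → K)), (∀ A : Finset σ, A.card = m → CovU N B A) →
    ∀ S : Finset K, cntU S B * S.card ≤ C * S.card ^ m := by
  classical
  induction m with
  | zero =>
    refine ⟨0, fun K _ B hB S => ?_⟩
    obtain ⟨f, hf, -, hfv, hfB⟩ := hB ∅ rfl
    have hBe : B = ∅ := by
      rw [Set.eq_empty_iff_forall_notMem]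
      intro l hl
      have h1 := hfB l hl
      obtain ⟨c, rfl⟩ : ∃ c, f = C c := ⟨_, vars_eq_empty_iff_eq_C.1 (Finset.subset_empty.1 hfv)⟩
      rw [eval_C] at h1
      exact hf (by rw [h1, map_zero])
    rw [hBe, cntU]
    simp
  | succ m ih =>
    obtain ⟨C1, hC1⟩ := ih
    have key : ∀ n : ℕ, ∃ C : ℕ, ∀ (K : Type) [Field K] (B : Set (σ → K))
        (𝒢 : Finset (Finset σ)), (∀ A ∈ 𝒢, A.card = m ∧ CovU N B A) →
        ((Finset.powersetCard m Finset.univ \ 𝒢).card = n) →
        (∀ A : Finset σ, A.card = m + 1 → CovU N B A) →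
        ∀ S : Finset K, cntU S B * S.card ≤ C * S.card ^ (m + 1) := by
      intro n
      induction n with
      | zero =>
        refine ⟨C1, fun K _ B 𝒢 h𝒢 hn _ S => ?_⟩
        rw [Finset.card_eq_zero, Finset.sdiff_eq_empty_iff_subset] at hn
        have hC := hC1 K B (fun A hA =>
          (h𝒢 A (hn (Finset.mem_powersetCard.2 ⟨Finset.subset_univ _, hA⟩))).2) S
        rcases Nat.eq_zero_or_pos S.card with h0 | h0
        · rw [h0, mul_zero]
          exact Nat.zero_le _
        · exact hC.trans (Nat.mul_le_mul_left _ (Nat.pow_le_pow_right h0 (Nat.le_succ m)))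
      | succ n ihn =>
        obtain ⟨C2, hC2⟩ := ihn
        refine ⟨(N + 1) ^ Fintype.card σ + Fintype.card σ * C2, fun K _ B 𝒢 h𝒢 hn hB S => ?_⟩
        have hne : (Finset.powersetCard m Finset.univ \ 𝒢).Nonempty := by
          rw [← Finset.card_pos, hn]
          omega
        obtain ⟨A, hA⟩ := hne
        obtain ⟨hA1, hA2⟩ := Finset.mem_sdiff.1 hA
        have hAc : A.card = m := (Finset.mem_powersetCard.1 hA1).2
        -- split the polynomials
        have h1 : ∀ i ∉ A, ∃ h : ℕ → MvPolynomial σ K, (∀ j, (h j).vars ⊆ A) ∧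
            (∀ j, (h j).totalDegree ≤ N) ∧
            (∀ l ∈ B, eval l (∑ j ∈ Finset.range (N + 1), X i ^ j * h j) = 0) ∧
            ∃ j ≤ N, h j ≠ 0 := by
          intro i hi
          obtain ⟨f, hf, hfN, hfv, hfB⟩ :=
            hB (insert i A) (by rw [Finset.card_insert_of_notMem hi, hAc])
          obtain ⟨h, h2, h2', h3, h4⟩ := split_var f hf N hfN i A hfv
          exact ⟨h, h2, h2', h3 ▸ hfB, h4⟩
        choose! h h2 h2' h3 j0 h4 h5 using h1
        let g : σ → MvPolynomial σ K := fun i => h i (j0 i)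
        let B0 : Set (σ → K) := {l ∈ B | ∀ i ∉ A, eval l (g i) ≠ 0}
        let Bi : σ → Set (σ → K) := fun i => {l ∈ B | eval l (g i) = 0}
        have hC0 := fiber N B0 A h h2 (fun i hi l hl => h3 i hi l hl.1)
          (fun i hi l hl => ⟨j0 i, h4 i hi, hl.2 i hi⟩) S
        have hBi : ∀ i ∈ Aᶜ, cntU S (Bi i) * S.card ≤ C2 * S.card ^ (m + 1) := by
          intro i hi
          have hiA : i ∉ A := Finset.mem_compl.1 hi
          exact hC2 K (Bi i) (insert A 𝒢) (by
            intro A' hA'
            rcases Finset.mem_insert.1 hA' with rfl | hA'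
            · exact ⟨hAc, g i, h5 i hiA, h2' i hiA _, h2 i hiA _, fun l hl => hl.2⟩
            · exact ⟨(h𝒢 A' hA').1, CntU.mono (fun l hl => hl.1) (h𝒢 A' hA').2⟩) (by
            rw [Finset.sdiff_insert, Finset.card_erase_of_mem hA, hn]
            rfl) (fun A' hA' => CntU.mono (fun l hl => hl.1) (hB A' hA')) S
        have h6 := le_add B B0 Aᶜ Bi (by
          intro l hl
          by_cases hl0 : ∀ i ∉ A, eval l (g i) ≠ 0
          · exact Or.inl ⟨hl, hl0⟩
          · push Not at hl0
            obtain ⟨i, hi, hz⟩ := hl0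
            refine Or.inr ?_
            rw [Set.mem_iUnion₂]
            exact ⟨i, Finset.mem_compl.2 hi, hl, hz⟩) S
        calc cntU S B * S.card ≤ (cntU S B0 + ∑ i ∈ Aᶜ, cntU S (Bi i)) * S.card :=
              Nat.mul_le_mul_right _ h6
          _ = cntU S B0 * S.card + ∑ i ∈ Aᶜ, cntU S (Bi i) * S.card := by
              rw [add_mul, Finset.sum_mul]
          _ ≤ (N + 1) ^ Fintype.card σ * S.card ^ (m + 1) + ∑ i ∈ Aᶜ, C2 * S.card ^ (m + 1) := by
              refine Nat.add_le_add ?_ (Finset.sum_le_sum fun i hi => hBi i hi)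
              calc cntU S B0 * S.card ≤ (N + 1) ^ Fintype.card σ * S.card ^ A.card * S.card :=
                    Nat.mul_le_mul_right _ hC0
                _ = (N + 1) ^ Fintype.card σ * S.card ^ (m + 1) := by rw [hAc, pow_succ]; ring
          _ ≤ ((N + 1) ^ Fintype.card σ + Fintype.card σ * C2) * S.card ^ (m + 1) := by
              rw [Finset.sum_const, smul_eq_mul, add_mul, mul_assoc]
              refine Nat.add_le_add_left (Nat.mul_le_mul_right _ ?_) _
              exact (Finset.card_le_univ _)
    obtain ⟨C, hC⟩ := key _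
    exact ⟨C, fun K _ B hB S => hC K B ∅ (by simp) rfl hB S⟩

end Pool.Agent.QGT
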