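import Pool.Agent.QGT.CD

set_option autoImplicit false

/-!
# The dimension count of Theorem T
-/

namespace Pool.Agent.QGT

open Module Submodule

variable {E G : Type*} [Field E] [Field G] [Algebra E G]

/-- If `theta A` lies in `W'`, the space `theta W + W'` is small. -/
theorem finrank_theta (θ : G) (W W' A : Submodule E G) [FiniteDimensional E W]
    [FiniteDimensional E W'] (hA : A ≤ W) (h1 : ∀ w ∈ A, θ * w ∈ W') :
    finrank E (span E {θ} * W ⊔ W' : Submodule E G) + finrank E A ≤
      finrank E W + finrank E W' := by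
  have := fd_mul (span E {θ}) W
  by_cases hθ : θ = 0
  · have h2 : (span E {θ} * W : Submodule E G) = ⊥ := by
      rw [hθ, Submodule.span_zero_singleton, Submodule.bot_mul]
    rw [h2, bot_sup_eq]
    have h3 := Submodule.finrank_mono hA
    omega
  · have h3 := Submodule.finrank_sup_add_finrank_inf_eq (span E {θ} * W) W'
    have h4 : finrank E A ≤ finrank E (span E {θ} * W ⊓ W' : Submodule E G) := by
      rw [← finrank_sc hθ A]
      refine Submodule.finrank_mono (le_inf (mul_le_mul' le_rfl hA) ?_)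
      rw [sc_eq]
      rintro _ ⟨w, hw, rfl⟩
      exact h1 w hw
    have h5 := finrank_sc hθ W
    omega

/-- **The count.** -/
theorem count [IsAlgClosed E] (θ H : G) (hH : H ≠ 0) (W W' A B : Submodule E G)
    [FiniteDimensional E W] [FiniteDimensional E W'] (hA : A ≤ W) [FiniteDimensional E B]
    (hA0 : A ≠ ⊥) (hB0 : B ≠ ⊥) (h1 : ∀ w ∈ A, θ * w ∈ W')
    (h2 : ∀ w ∈ A, ∀ w' ∈ B, ∃ u ∈ W, ∃ v ∈ W', H * (w * w') = θ * u + v) :
    2 * finrank E A + finrank E B ≤ finrank E W + finrank E W' + 1 := by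
  have hAf : FiniteDimensional E A := Submodule.finiteDimensional_of_le hA
  have := fd_mul (span E {θ}) W
  have h3 := cd A B hA0 hB0
  have h4 := finrank_theta θ W W' A hA h1
  have h5 : finrank E (A * B : Submodule E G) ≤
      finrank E (span E {θ} * W ⊔ W' : Submodule E G) := by
    rw [← finrank_sc hH (A * B)]
    refine Submodule.finrank_mono ?_
    rw [sc_eq, Submodule.map_le_iff_le_comap, Submodule.mul_le]
    intro w hw w' hw'
    obtain ⟨u, hu, v, hv, h⟩ := h2 w hw w' hw'
    show H * (w * w') ∈ (span E {θ} * W ⊔ W' : Submodule E G)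
    rw [h]
    exact Submodule.add_mem_sup
      (Submodule.mul_mem_mul (Submodule.mem_span_singleton_self θ) hu) hv
  omega

/-- The count, in terms of the partial derivatives. -/
theorem countPQ [IsAlgClosed E] (p q H : G) (hq : q ≠ 0) (hH : H ≠ 0)
    (W W' A B : Submodule E G) [FiniteDimensional E W] [FiniteDimensional E W'] (hA : A ≤ W)
    [FiniteDimensional E B] (hA0 : A ≠ ⊥) (hB0 : B ≠ ⊥)
    (h1 : ∀ w ∈ A, ∃ z ∈ W', p * w + q * z = 0)
    (h2 : ∀ w ∈ A, ∀ w' ∈ B, ∃ u ∈ W, ∃ v ∈ W', H * w * w' = q ^ 2 * (p * u + q * v)) :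
    2 * finrank E A + finrank E B ≤ finrank E W + finrank E W' + 1 := by
  refine count (p / q) (H / q ^ 3) (div_ne_zero hH (pow_ne_zero 3 hq)) W W' A B hA hA0 hB0 ?_ ?_
  · intro w hw
    obtain ⟨z, hz, h⟩ := h1 w hw
    have h3 : p / q * w = -z := by
      field_simp
      linear_combination h
    rw [h3]
    exact W'.neg_mem hz
  · intro w hw w' hw'
    obtain ⟨u, hu, v, hv, h⟩ := h2 w hw w' hw'
    refine ⟨u, hu, v, hv, ?_⟩
    field_simp
    linear_combination h

end Pool.Agent.QGT
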