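import Pool.Agent.GenTuple.Twist

/-! # Theorem T, step (4): a hypersurface relation with vanishing second fundamental form is
linear -/

set_option autoImplicit false

namespace Pool.Agent.QGT

open MvPolynomial Pool.Agent.GenTuple

/-- an element killed by all derivations over an algebraically closed field is a constant -/
theorem const_of_der {E G : Type} [Field E] [CharZero E] [IsAlgClosed E] [Field G] [Algebra E G]
    (θ : G) (h : ∀ δ : Derivation E G G, δ θ = 0) : ∃ c : E, algebraMap E G c = θ := by
  by_cases ht : Transcendental E θ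
  · exfalso
    have h1 : AlgebraicIndependent E (fun _ : Unit => θ) :=
      algebraicIndependent_unique_type_iff.2 ht
    obtain ⟨D, hD⟩ := exists_der h1 (fun _ => 1)
    exact one_ne_zero ((hD ()).symm.trans (h D))
  · have h1 : IsAlgebraic E θ := not_not.1 ht
    exact minpoly.mem_range_of_degree_eq_one E θ
      (IsAlgClosed.degree_eq_one_of_irreducible E (minpoly.irreducible h1.isIntegral))

/-- The second fundamental form of `P = 0` at `v`, times `q ^ 3`. -/
noncomputable def Hess {E G : Type} [Field E] [Field G] [Algebra E G] {k : ℕ}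
    (P : MvPolynomial (Fin (k + 1)) E) (v : Fin (k + 1) → G) (j l : Fin k) : G :=
  aeval v (pderiv 0 P) ^ 2 * aeval v (pderiv l.succ (pderiv j.succ P)) -
    aeval v (pderiv 0 P) * aeval v (pderiv l.succ P) * aeval v (pderiv 0 (pderiv j.succ P)) -
    aeval v (pderiv 0 P) * aeval v (pderiv j.succ P) * aeval v (pderiv l.succ (pderiv 0 P)) +
    aeval v (pderiv j.succ P) * aeval v (pderiv l.succ P) * aeval v (pderiv 0 (pderiv 0 P))

/-- **Step (4).** If the second fundamental form vanishes the relation is linear. -/
theorem linear_of_hess {E G : Type} [Field E] [CharZero E] [IsAlgClosed E] [Field G]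
    [Algebra E G] {k : ℕ} (P : MvPolynomial (Fin (k + 1)) E) (v : Fin (k + 1) → G)
    (hP : aeval v P = 0) (hq : aeval v (pderiv 0 P) ≠ 0) (hH : ∀ j l : Fin k, Hess P v j l = 0) :
    ∃ (c0 : E) (c : Fin k → E),
      v 0 = algebraMap E G c0 + ∑ i, algebraMap E G (c i) * v i.succ := by
  classical
  set q := aeval v (pderiv 0 P) with hqdef
  have hder : ∀ (δ : Derivation E G G) (Q : MvPolynomial (Fin (k + 1)) E),
      δ (aeval v Q) = aeval v (pderiv 0 Q) * δ (v 0) +
        ∑ l : Fin k, aeval v (pderiv l.succ Q) * δ (v l.succ) := by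
    intro δ Q
    rw [der_aeval, Fin.sum_univ_succ]
  have h0 : ∀ δ : Derivation E G G,
      q * δ (v 0) = -∑ l : Fin k, aeval v (pderiv l.succ P) * δ (v l.succ) := by
    intro δ
    have h1 := hder δ P
    rw [hP, map_zero] at h1
    exact eq_neg_of_add_eq_zero_left h1.symm
  -- the quotients are constants
  have hθ : ∀ j : Fin k, ∃ c : E, algebraMap E G c = -(aeval v (pderiv j.succ P)) / q := by
    intro j
    refine const_of_der _ fun δ => ?_
    have h1 : -(aeval v (pderiv j.succ P)) / q * q = -(aeval v (pderiv j.succ P)) :=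
      div_mul_cancel₀ _ hq
    have h2 := congrArg δ h1
    rw [Derivation.leibniz, smul_eq_mul, smul_eq_mul, map_neg] at h2
    have h3 : q * (q * (q * δ (-(aeval v (pderiv j.succ P)) / q))) = 0 := by
      have h4 : q * δ (-(aeval v (pderiv j.succ P)) / q) =
          -δ (aeval v (pderiv j.succ P)) - -(aeval v (pderiv j.succ P)) / q * δ q := by
        linear_combination h2
      have h5 : q * (q * δ (-(aeval v (pderiv j.succ P)) / q)) =
          -(q * δ (aeval v (pderiv j.succ P))) + aeval v (pderiv j.succ P) * δ q := by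
        rw [h4, mul_sub]
        have h6 : q * (-(aeval v (pderiv j.succ P)) / q * δ q) =
            -(aeval v (pderiv j.succ P)) * δ q := by
          rw [← mul_assoc, mul_div_cancel₀ _ hq]
        rw [h6]
        ring
      rw [h5, hqdef, hder δ (pderiv j.succ P), hder δ (pderiv 0 P), ← hqdef]
      have h7 : (∑ l : Fin k, Hess P v j l * δ (v l.succ)) = 0 :=
        Finset.sum_eq_zero fun l _ => by rw [hH, zero_mul]
      have h8 : (∑ l : Fin k, Hess P v j l * δ (v l.succ)) =
          q ^ 2 * (∑ l : Fin k, aeval v (pderiv l.succ (pderiv j.succ P)) * δ (v l.succ)) -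
          q * aeval v (pderiv 0 (pderiv j.succ P)) *
            (∑ l : Fin k, aeval v (pderiv l.succ P) * δ (v l.succ)) -
          q * aeval v (pderiv j.succ P) *
            (∑ l : Fin k, aeval v (pderiv l.succ (pderiv 0 P)) * δ (v l.succ)) +
          aeval v (pderiv j.succ P) * aeval v (pderiv 0 (pderiv 0 P)) *
            (∑ l : Fin k, aeval v (pderiv l.succ P) * δ (v l.succ)) := by
        rw [Finset.mul_sum, Finset.mul_sum, Finset.mul_sum, Finset.mul_sum,
          ← Finset.sum_sub_distrib, ← Finset.sum_sub_distrib, ← Finset.sum_add_distrib]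
        refine Finset.sum_congr rfl fun l _ => ?_
        rw [Hess, ← hqdef]
        ring
      rw [h8] at h7
      have h9 := h0 δ
      linear_combination -h7 + (aeval v (pderiv j.succ P) * aeval v (pderiv 0 (pderiv 0 P)) -
        q * aeval v (pderiv 0 (pderiv j.succ P))) * h9
    rcases mul_eq_zero.1 h3 with h4 | h4
    · exact absurd h4 hq
    rcases mul_eq_zero.1 h4 with h5 | h5
    · exact absurd h5 hq
    exact (mul_eq_zero.1 h5).resolve_left hq
  choose c hc using hθ
  have h1 : ∃ c0 : E, algebraMap E G c0 = v 0 - ∑ i, algebraMap E G (c i) * v i.succ := by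
    refine const_of_der _ fun δ => ?_
    rw [map_sub, map_sum]
    have h2 : ∀ i : Fin k, δ (algebraMap E G (c i) * v i.succ) =
        algebraMap E G (c i) * δ (v i.succ) := by
      intro i
      rw [Derivation.leibniz, Derivation.map_algebraMap, smul_zero, add_zero, smul_eq_mul]
    rw [Finset.sum_congr rfl fun i _ => h2 i]
    have h3 : q * (δ (v 0) - ∑ i, algebraMap E G (c i) * δ (v i.succ)) = 0 := by
      rw [mul_sub, h0, Finset.mul_sum, ← Finset.sum_neg_distrib, ← Finset.sum_sub_distrib]
      refine Finset.sum_eq_zero fun i _ => ?_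
      rw [hc, ← mul_assoc, mul_div_cancel₀ _ hq]
      ring
    exact (mul_eq_zero.1 h3).resolve_left hq
  obtain ⟨c0, hc0⟩ := h1
  exact ⟨c0, c, by rw [hc0]; ring⟩

end Pool.Agent.QGT
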