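import Pool.Agent.GenTuple.Dim
import Pool.Agent.QGT.ConstT

/-! # Theorem T, steps (2) and (3): the first and second order relations -/

set_option autoImplicit false

namespace Pool.Agent.QGT

open MvPolynomial TensorProduct Pool.Agent.GenTuple

section

variable {K E F G : Type} [Field K] [Field E] [Field F] [Field G] [Algebra K E] [Algebra K F]
  [Algebra K G] [Algebra E G] [Algebra F G] [IsScalarTower K E G] [IsScalarTower K F G]

/-- The combination `∑ c_i f_i` in `G`. -/
def lin (G : Type) {E F : Type} [Field E] [Field F] [Field G] [Algebra E G] [Algebra F G]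
    {s : ℕ} (c : Fin s → E) (f : Fin s → F) : G :=
  ∑ i, algebraMap E G (c i) * algebraMap F G (f i)

/-- `D` moves the row `j` in the direction `lam` and kills the other rows and the coefficients
of `P`. -/
def Dir {K E : Type} [Field K] [Field E] [Algebra K E] {k r : ℕ} (m : Fin k × Fin r → E)
    (P : MvPolynomial (Fin (k + 1)) E) (j : Fin k) (lam : Fin r → E) (D : Derivation K E E) :
    Prop :=
  (∀ i, D (m (j, i)) = lam i) ∧ (∀ l, l ≠ j → ∀ i, D (m (l, i)) = 0) ∧
    ∀ α, D (P.coeff α) = 0

theorem dcoef_zero {ι : Type} (D : Derivation K E E) (P : MvPolynomial ι E)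
    (hD : ∀ α, D (P.coeff α) = 0) : dcoef D P = 0 := by
  unfold dcoef
  exact Finset.sum_eq_zero fun α _ => by rw [hD, monomial_zero]

theorem kills_pderiv {ι : Type} (D : Derivation K E E) (P : MvPolynomial ι E)
    (hD : ∀ α, D (P.coeff α) = 0) (l : ι) : ∀ α, D ((pderiv l P).coeff α) = 0 := by
  intro α
  have h1 : D (((α l : ℕ) : E) + 1) = 0 := by
    have h2 : ((α l : ℕ) : E) + 1 = ((α l + 1 : ℕ) : E) := by push_cast; rfl
    rw [h2]
    exact D.map_natCast _
  rw [coeff_pderiv, Derivation.leibniz, hD, h1, smul_zero, smul_zero, add_zero]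

/-- the combination in the tensor product -/
noncomputable def tlin (K : Type) {E F : Type} [Field K] [Field E] [Field F] [Algebra K E]
    [Algebra K F] {s : ℕ} (c : Fin s → E) (f : Fin s → F) : E ⊗[K] F :=
  ∑ i, c i ⊗ₜ f i

theorem mu_tlin {s : ℕ} (c : Fin s → E) (f : Fin s → F) :
    mu K E F G (tlin K c f) = lin G c f := by
  rw [tlin, map_sum, lin]
  exact Finset.sum_congr rfl fun i _ => mu_tmul _ _

theorem tder_tlin {s : ℕ} (D : Derivation K E E) (c : Fin s → E) (f : Fin s → F) :
    tder (F := F) D (tlin K c f) = tlin K (fun i => D (c i)) f := by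
  rw [tlin, map_sum, tlin]
  exact Finset.sum_congr rfl fun i _ => tder_tmul _ _ _

theorem tlin_zero {s : ℕ} (f : Fin s → F) : tlin K (fun _ : Fin s => (0 : E)) f = 0 := by
  rw [tlin]
  exact Finset.sum_eq_zero fun i _ => TensorProduct.zero_tmul _ _

theorem tder_aeval {k : ℕ} (V : Fin (k + 1) → E ⊗[K] F) (D : Derivation K E E)
    (Q : MvPolynomial (Fin (k + 1)) E) (hD : ∀ α, D (Q.coeff α) = 0) :
    tder (F := F) D (aeval V Q) =
      aeval V (pderiv 0 Q) * tder (F := F) D (V 0) +
        ∑ l : Fin k, aeval V (pderiv l.succ Q) * tder (F := F) D (V l.succ) := by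
  have h1 := der_twist D (tder (F := F) D) (fun e => by
    rw [Algebra.TensorProduct.algebraMap_apply, Algebra.algebraMap_self_apply, tder_tmul,
      Algebra.TensorProduct.algebraMap_apply, Algebra.algebraMap_self_apply]) V Q
  rw [h1, dcoef_zero D Q hD, map_zero, zero_add, Fin.sum_univ_succ]

/-- **The first and second order relations.** -/
theorem second (h : Disj K E F G) {k r b : ℕ} (t : Fin k → Fin r → F) (p : Fin b → F)
    (m : Fin k × Fin r → E) (n : Fin b → E) (P : MvPolynomial (Fin (k + 1)) E)
    (v : Fin (k + 1) → G) (hv0 : v 0 = lin G n p)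
    (hv : ∀ i : Fin k, v i.succ = lin G (fun a => m (i, a)) (t i)) (hP : aeval v P = 0)
    {j l : Fin k} {lam mu' : Fin r → E} {D D' : Derivation K E E}
    (hD : Dir m P j lam D) (hD' : Dir m P l mu' D') :
    (aeval v (pderiv j.succ P) * lin G lam (t j) +
      aeval v (pderiv 0 P) * lin G (fun a => D (n a)) p = 0) ∧
    Hess P v j l * (lin G lam (t j) * lin G mu' (t l)) =
      -(aeval v (pderiv 0 P) ^ 2 * (aeval v (pderiv j.succ P) *
        lin G (fun a => D' (lam a)) (t j) +
          aeval v (pderiv 0 P) * lin G (fun a => D' (D (n a))) p)) := by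
  classical
  let V : Fin (k + 1) → E ⊗[K] F := Fin.cons (tlin K n p) fun i => tlin K (fun a => m (i, a)) (t i)
  have hmu : ∀ Q : MvPolynomial (Fin (k + 1)) E, mu K E F G (aeval V Q) = aeval v Q := by
    intro Q
    rw [← AlgHom.comp_apply, comp_aeval]
    congr 2
    funext a
    refine Fin.cases ?_ (fun i => ?_) a
    · change mu K E F G (tlin K n p) = v 0
      rw [mu_tlin, hv0]
    · change mu K E F G (tlin K (fun a => m (i, a)) (t i)) = v i.succ
      rw [mu_tlin, hv]
  have h0 : aeval V P = 0 := by
    apply mu_injective h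
    rw [hmu, hP, map_zero]
  have hV0 : ∀ D : Derivation K E E, tder (F := F) D (V 0) = tlin K (fun a => D (n a)) p :=
    fun D => tder_tlin D n p
  -- a sum over the rows has one term
  have hrow : ∀ {j : Fin k} {lam : Fin r → E} {D : Derivation K E E} (_ : Dir m P j lam D)
      (c : Fin k → E ⊗[K] F), ∑ i : Fin k, c i * tder (F := F) D (V i.succ) =
        c j * tlin K lam (t j) := by
    intro j lam D hD c
    rw [Finset.sum_eq_single j]
    · congr 1
      change tder (F := F) D (tlin K (fun a => m (j, a)) (t j)) = _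
      rw [tder_tlin]
      congr 1
      funext a
      exact hD.1 a
    · intro i _ hij
      have h1 : tder (F := F) D (V i.succ) = 0 := by
        change tder (F := F) D (tlin K (fun a => m (i, a)) (t i)) = _
        rw [tder_tlin]
        have h2 : (fun a => D (m (i, a))) = fun _ => (0 : E) := by
          funext a
          exact hD.2.1 i hij a
        rw [h2, tlin_zero]
      rw [h1, mul_zero]
    · intro h1
      exact absurd (Finset.mem_univ _) h1
  have r1 : ∀ {j : Fin k} {lam : Fin r → E} {D : Derivation K E E} (_ : Dir m P j lam D),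
      aeval V (pderiv 0 P) * tlin K (fun a => D (n a)) p +
        aeval V (pderiv j.succ P) * tlin K lam (t j) = 0 := by
    intro j lam D hD
    have h1 := tder_aeval V D P hD.2.2
    rw [h0, map_zero, hV0, hrow hD (fun i => aeval V (pderiv i.succ P))] at h1
    exact h1.symm
  have f1 : ∀ {j : Fin k} {lam : Fin r → E} {D : Derivation K E E} (_ : Dir m P j lam D),
      aeval v (pderiv j.succ P) * lin G lam (t j) +
      aeval v (pderiv 0 P) * lin G (fun a => D (n a)) p = 0 := by
    intro j lam D hD
    have h1 := congrArg (mu K E F G) (r1 hD)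
    rw [map_add, map_mul, map_mul, map_zero, hmu, hmu, mu_tlin, mu_tlin] at h1
    rw [add_comm]
    exact h1
  refine ⟨f1 hD, ?_⟩
  -- the second order relation
  have h2 := congrArg (tder (F := F) D') (r1 hD)
  have hQ : ∀ a : Fin (k + 1), tder (F := F) D' (aeval V (pderiv a P)) =
      aeval V (pderiv 0 (pderiv a P)) * tlin K (fun c => D' (n c)) p +
        aeval V (pderiv l.succ (pderiv a P)) * tlin K mu' (t l) := by
    intro a
    rw [tder_aeval V D' _ (kills_pderiv D' P hD'.2.2 a), hV0,
      hrow hD' (fun i => aeval V (pderiv i.succ (pderiv a P)))]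
  rw [map_add, map_zero, Derivation.leibniz, Derivation.leibniz, hQ, hQ, tder_tlin,
    tder_tlin] at h2
  have h3 := congrArg (mu K E F G) h2
  simp only [smul_eq_mul, map_add, map_mul, map_zero, hmu, mu_tlin] at h3
  have e1 := f1 hD
  have e2 := f1 hD'
  rw [Hess]
  linear_combination (aeval v (pderiv 0 P)) ^ 2 * h3 -
    (aeval v (pderiv 0 P) * aeval v (pderiv l.succ (pderiv 0 P)) * lin G mu' (t l) +
      aeval v (pderiv 0 P) * aeval v (pderiv 0 (pderiv 0 P)) * lin G (fun a => D' (n a)) p) * e1 -
    (aeval v (pderiv 0 P) * aeval v (pderiv 0 (pderiv j.succ P)) * lin G lam (t j) -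
      aeval v (pderiv 0 (pderiv 0 P)) * aeval v (pderiv j.succ P) * lin G lam (t j)) * e2

/-- **The directions which kill the coefficients.** `A` is the set of the coordinates which are
algebraically independent, all but `c` of them. -/
theorem dirsA {K E : Type} [Field K] [CharZero K] [Field E] [Algebra K E] {k r d c : ℕ}
    (m : Fin k × Fin r → E) (A : Finset (Fin k × Fin r)) (hA : k * r ≤ A.card + c)
    (hm : AlgebraicIndependent K (fun a : A => m a)) (P : MvPolynomial (Fin (k + 1)) E)
    (hPd : P.totalDegree ≤ d) (α₀ : Fin (k + 1) →₀ ℕ) (hα₀ : P.coeff α₀ = 1) (j : Fin k) :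
    ∃ L : Submodule E (Fin r → E),
      r + 1 ≤ Module.finrank E L + c + (lowDeg (Fin (k + 1)) d).card ∧
      ∀ lam ∈ L, ∃ D : Derivation K E E, Dir m P j lam D := by
  classical
  have hder : ∀ a : A, ∃ D : Derivation K E E, ∀ a' : A, D (m a') = if a' = a then 1 else 0 :=
    fun a => exists_der hm _
  choose D hD using hder
  let T := (lowDeg (Fin (k + 1)) d).erase α₀
  let O := {q : Fin k × Fin r // q.1 ≠ j}
  let R : (A → E) →ₗ[E] (T ⊕ O → E) :=
    { toFun := fun v => Sum.elim (fun α => ∑ a, v a * D a (P.coeff α))
        (fun q => ∑ a, v a * D a (m q))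
      map_add' := fun v w => by
        funext q
        rcases q with q | q <;>
        simp only [Sum.elim_inl, Sum.elim_inr, Pi.add_apply, add_mul, Finset.sum_add_distrib]
      map_smul' := fun e v => by
        funext q
        rcases q with q | q <;>
        simp only [Sum.elim_inl, Sum.elim_inr, Pi.smul_apply, smul_eq_mul, Finset.mul_sum,
          mul_assoc, RingHom.id_apply] }
  let S : (A → E) →ₗ[E] (Fin r → E) :=
    { toFun := fun v i => ∑ a, v a * D a (m (j, i))
      map_add' := fun v w => by
        funext q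
        simp only [Pi.add_apply, add_mul, Finset.sum_add_distrib]
      map_smul' := fun e v => by
        funext q
        simp only [Pi.smul_apply, smul_eq_mul, Finset.mul_sum, mul_assoc, RingHom.id_apply] }
  have hmem0 : α₀ ∈ lowDeg (Fin (k + 1)) d := by
    rw [mem_lowDeg]
    have h2 := le_totalDegree (p := P) (s := α₀) (by
      rw [mem_support_iff, hα₀]
      exact one_ne_zero)
    rw [Finsupp.sum_fintype _ _ (fun _ => rfl)] at h2
    exact h2.trans hPd
  have hcardO : Fintype.card O = (k - 1) * r := by
    have e1 : O ≃ {i' : Fin k // i' ≠ j} × Fin r :=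
      { toFun := fun q => (⟨q.1.1, q.2⟩, q.1.2)
        invFun := fun q => ⟨(q.1.1, q.2), q.1.2⟩
        left_inv := fun q => rfl
        right_inv := fun q => rfl }
    rw [Fintype.card_congr e1, Fintype.card_prod, Fintype.card_subtype_compl]
    simp
  have hinj : Set.InjOn S (LinearMap.ker R : Set (A → E)) := by
    have key : ∀ v ∈ LinearMap.ker R, S v = 0 → v = 0 := by
      intro v hv hS
      funext a
      have h1 : v a = ∑ a', v a' * D a' (m a) := by
        rw [Finset.sum_eq_single a]
        · rw [hD, if_pos rfl, mul_one]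
        · intro a' _ ha'
          rw [hD, if_neg (Ne.symm ha'), mul_zero]
        · intro h1
          exact absurd (Finset.mem_univ _) h1
      rw [h1]
      by_cases hj : (a : Fin k × Fin r).1 = j
      · have h2 := congrFun hS (a : Fin k × Fin r).2
        have h3 : ((j, (a : Fin k × Fin r).2) : Fin k × Fin r) = a := by
          rw [← hj]
        change ∑ a', v a' * D a' (m (j, (a : Fin k × Fin r).2)) = 0 at h2
        rw [h3] at h2
        exact h2
      · exact congrFun (LinearMap.mem_ker.1 hv) (Sum.inr ⟨a, hj⟩)
    intro v hv w hw hvw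
    have h1 := key (v - w) (Submodule.sub_mem _ hv hw) (by rw [map_sub, hvw, sub_self])
    exact sub_eq_zero.1 h1
  refine ⟨(LinearMap.ker R).map S, ?_, ?_⟩
  · have h1 := LinearMap.finrank_range_add_finrank_ker R
    rw [Module.finrank_fintype_fun_eq_card, Fintype.card_coe] at h1
    have h2 := Submodule.finrank_le (LinearMap.range R)
    rw [Module.finrank_fintype_fun_eq_card, Fintype.card_sum, Fintype.card_coe,
      Finset.card_erase_of_mem hmem0, hcardO] at h2
    have h3 : 0 < (lowDeg (Fin (k + 1)) d).card := Finset.card_pos.2 ⟨α₀, hmem0⟩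
    have h4 : Module.finrank E (LinearMap.ker R) =
        Module.finrank E ((LinearMap.ker R).map S) := by
      have hi : Function.Injective (S.domRestrict (LinearMap.ker R)) := by
        intro v w hvw
        exact Subtype.ext (hinj v.2 w.2 hvw)
      have h5 := LinearMap.finrank_range_of_inj hi
      rw [LinearMap.range_domRestrict] at h5
      exact h5.symm
    have hk : 0 < k := j.pos
    have h6 : k * r = (k - 1) * r + r := by
      obtain ⟨k', rfl⟩ : ∃ k', k = k' + 1 := ⟨k - 1, by omega⟩
      rw [Nat.add_sub_cancel, add_mul, one_mul]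
    omega
  · rintro _ ⟨v, hv, rfl⟩
    let δ : Derivation K E E := ∑ a, v a • D a
    have hδ : ∀ q, δ q = ∑ a, v a * D a q := by
      intro q
      have := congrFun (map_sum Derivation.coeFnAddMonoidHom (fun a => v a • D a)
        (Finset.univ : Finset A)) q
      rw [Finset.sum_apply] at this
      exact this
    refine ⟨δ, ?_, ?_, ?_⟩
    · intro i
      rw [hδ]
      rfl
    · intro l hl i
      rw [hδ]
      exact congrFun (LinearMap.mem_ker.1 hv) (Sum.inr ⟨(l, i), hl⟩)
    · intro α
      by_cases hα : α ∈ T
      · rw [hδ]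
        exact congrFun (LinearMap.mem_ker.1 hv) (Sum.inl ⟨α, hα⟩)
      · by_cases h1 : α = α₀
        · rw [h1, hα₀]
          exact δ.map_one_eq_zero
        · have h2 : P.coeff α = 0 := by
            by_contra h3
            apply hα
            rw [Finset.mem_erase]
            refine ⟨h1, ?_⟩
            rw [mem_lowDeg]
            have h4 := le_totalDegree (p := P) (s := α) (mem_support_iff.2 h3)
            rw [Finsupp.sum_fintype _ _ (fun _ => rfl)] at h4
            exact h4.trans hPd
          rw [h2, map_zero]

end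

end Pool.Agent.QGT
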