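import Pool.Agent.GenTuple.Gen
import Pool.Agent.QT.Pts
import Pool.Agent.QGT.SecondT
import Pool.Agent.QGT.Count

/-! # Theorem TC in the ultrapower -/

set_option autoImplicit false

namespace Pool.Agent.QGT

open MvPolynomial Pool.Agent.GenTuple Pool.Agent.QT

/-- the linear map `c ↦ ∑ c_i f_i` -/
def linL (E G : Type) {F : Type} [Field E] [Field F] [Field G] [Algebra E G] [Algebra F G]
    {s : ℕ} (f : Fin s → F) : (Fin s → E) →ₗ[E] G where
  toFun := fun c => lin G c f
  map_add' := fun c c' => by
    simp only [lin, Pi.add_apply, map_add, add_mul, Finset.sum_add_distrib]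
  map_smul' := fun e c => by
    simp only [lin, Pi.smul_apply, smul_eq_mul, map_mul, RingHom.id_apply, Algebra.smul_def,
      Finset.mul_sum, mul_assoc]

theorem linL_apply {E G F : Type} [Field E] [Field F] [Field G] [Algebra E G] [Algebra F G]
    {s : ℕ} (f : Fin s → F) (c : Fin s → E) : linL E G f c = lin G c f := rfl

theorem linL_injective {K E F G : Type} [Field K] [Field E] [Field F] [Field G] [Algebra K F]
    [Algebra E G] [Algebra F G] (h : Disj K E F G) {s : ℕ} (f : Fin s → F)
    (hf : LinearIndependent K f) : Function.Injective (linL E G f) := by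
  rw [← LinearMap.ker_eq_bot, LinearMap.ker_eq_bot']
  intro c hc
  have h1 := h _ f hf
  rw [Fintype.linearIndependent_iff] at h1
  funext i
  refine h1 c ?_ i
  rw [← hc, linL_apply, lin]
  exact Finset.sum_congr rfl fun i _ => by rw [Algebra.smul_def]

/-- a relation of minimal degree with one coefficient equal to one -/
theorem exists_min {E G : Type} [Field E] [CharZero E] [Field G] [Algebra E G] {k d : ℕ}
    (v : Fin (k + 1) → G) (hbad : ¬ Good E d v) :
    ∃ P : MvPolynomial (Fin (k + 1)) E, P.totalDegree ≤ d ∧ aeval v P = 0 ∧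
      (∃ α₀, P.coeff α₀ = 1) ∧ ∀ l, aeval v (pderiv l P) = 0 → pderiv l P = 0 := by
  classical
  have hex : ∃ n : ℕ, ∃ P : MvPolynomial (Fin (k + 1)) E, P ≠ 0 ∧ P.totalDegree = n ∧ n ≤ d ∧
      aeval v P = 0 := by
    unfold Good at hbad
    push Not at hbad
    obtain ⟨P, h1, h2, h3⟩ := hbad
    exact ⟨_, P, h3, rfl, h1, h2⟩
  obtain ⟨P, hP0, hPn, hnd, hP⟩ := Nat.find_spec hex
  have hmin := fun m (hm : m < Nat.find hex) => Nat.find_min hex hm
  obtain ⟨α₀, hα₀⟩ : ∃ α, P.coeff α ≠ 0 := by
    by_contra h1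
    push Not at h1
    exact hP0 (by ext α; rw [h1, coeff_zero])
  have hle : ((P.coeff α₀)⁻¹ • P).totalDegree ≤ P.totalDegree := totalDegree_smul_le _ _
  refine ⟨(P.coeff α₀)⁻¹ • P, ?_, ?_, ⟨α₀, ?_⟩, ?_⟩
  · omega
  · rw [map_smul, hP, smul_zero]
  · rw [coeff_smul, smul_eq_mul, inv_mul_cancel₀ hα₀]
  · intro l hl
    by_contra hne
    have h1 := totalDegree_pderiv_lt l _ hne
    exact hmin (pderiv l ((P.coeff α₀)⁻¹ • P)).totalDegree (by omega)
      ⟨_, hne, rfl, by omega, hl⟩

/-- **Theorem TC in the ultrapower.** -/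
theorem coreTC {K E F G : Type} [Field K] [CharZero K] [Field E] [IsAlgClosed E] [Field F]
    [Field G] [Algebra K E] [Algebra K F] [Algebra K G] [Algebra E G] [Algebra F G]
    [IsScalarTower K E G] [IsScalarTower K F G] (h : Disj K E F G) {k r b d c : ℕ}
    (hN : b + 3 * (lowDeg (Fin (k + 1)) d).card + 3 * c ≤ 2 * r + 1)
    (A : Finset (Fin k × Fin r)) (hA : k * r ≤ A.card + c)
    (t : Fin k → Fin r → F) (ht : ∀ j, LinearIndependent K (t j)) (p : Fin b → F)
    (m : Fin k × Fin r → E) (n : Fin b → E) (hm : AlgebraicIndependent K (fun a : A => m a))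
    (hy : ∀ (c0 : E) (c' : Fin k → E), ∑ j, algebraMap E G (n j) * algebraMap F G (p j) ≠
      algebraMap E G c0 + ∑ i, algebraMap E G (c' i) *
        ∑ j, algebraMap E G (m (i, j)) * algebraMap F G (t i j)) :
    Good E d (Fin.cons (∑ j, algebraMap E G (n j) * algebraMap F G (p j))
      fun i => ∑ j, algebraMap E G (m (i, j)) * algebraMap F G (t i j) : Fin (k + 1) → G) := by
  classical
  have _ : CharZero E := charZero_of_injective_algebraMap (algebraMap K E).injective
  by_contra hbad
  set v : Fin (k + 1) → G := Fin.cons (∑ j, algebraMap E G (n j) * algebraMap F G (p j))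
      fun i => ∑ j, algebraMap E G (m (i, j)) * algebraMap F G (t i j) with hv
  have hv0 : v 0 = lin G n p := rfl
  have hvs : ∀ i : Fin k, v i.succ = lin G (fun a => m (i, a)) (t i) := fun i => rfl
  obtain ⟨P, hPd, hP, ⟨α₀, hα₀⟩, hmin⟩ := exists_min v hbad
  choose L hLd hL using fun j : Fin k => dirsA m A hA hm P hPd α₀ hα₀ j
  have hLpos : ∀ j, 0 < Module.finrank E (L j) := by
    intro j
    have h1 := hLd j
    have h2 : α₀ ∈ lowDeg (Fin (k + 1)) d := by
      rw [mem_lowDeg]
      have h2 := le_totalDegree (p := P) (s := α₀) (by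
        rw [mem_support_iff, hα₀]
        exact one_ne_zero)
      rw [Finsupp.sum_fintype _ _ (fun _ => rfl)] at h2
      exact h2.trans hPd
    have h3 : 0 < (lowDeg (Fin (k + 1)) d).card := Finset.card_pos.2 ⟨α₀, h2⟩
    omega
  -- the derivative with respect to the last variable does not vanish
  have hq : aeval v (pderiv 0 P) ≠ 0 := by
    intro hq
    have h0 := hmin 0 hq
    have h1 : ∀ j : Fin k, pderiv j.succ P = 0 := by
      intro j
      apply hmin
      have hne : L j ≠ ⊥ := by
        intro h1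
        have := hLpos j
        rw [h1, finrank_bot] at this
        omega
      obtain ⟨lam, hlam, hlam0⟩ := Submodule.exists_mem_ne_zero_of_ne_bot hne
      obtain ⟨D, hD⟩ := hL j lam hlam
      have h2 := (second h t p m n P v hv0 hvs hP hD hD).1
      rw [hq, zero_mul, add_zero] at h2
      refine (mul_eq_zero.1 h2).resolve_right fun h3 => hlam0 ?_
      apply linL_injective h (t j) (ht j)
      rw [map_zero]
      exact h3
    have h2 : P.vars = ∅ := by
      rw [Finset.eq_empty_iff_forall_notMem]
      intro l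
      refine Fin.cases ?_ (fun i => ?_) l
      · exact notMem_vars_of_pderiv _ _ h0
      · exact notMem_vars_of_pderiv _ _ (h1 i)
    obtain ⟨e, he⟩ : ∃ e, P = C e := ⟨_, vars_eq_empty_iff_eq_C.1 h2⟩
    rw [he, aeval_C] at hP
    have h3 : e = 0 := (algebraMap E G).injective (by rw [hP, map_zero])
    rw [he, h3, map_zero, coeff_zero] at hα₀
    exact zero_ne_one hα₀
  -- the second fundamental form does not vanish
  have hH : ∃ j l : Fin k, Hess P v j l ≠ 0 := by
    by_contra hH
    push Not at hH
    obtain ⟨c0, c', h1⟩ := linear_of_hess P v hP hq hH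
    exact hy c0 c' h1
  obtain ⟨j, l, hjl⟩ := hH
  -- the count
  have hfin : ∀ i : Fin k, Module.finrank E ((L i).map (linL E G (t i))) =
      Module.finrank E (L i) := fun i =>
    (LinearEquiv.finrank_eq (Submodule.equivMapOfInjective _
      (linL_injective h (t i) (ht i)) (L i))).symm
  have hne : ∀ i : Fin k, (L i).map (linL E G (t i)) ≠ ⊥ := by
    intro i h1
    have h2 := hfin i
    rw [h1, finrank_bot] at h2
    have := hLpos i
    omega
  have h1 := countPQ (aeval v (pderiv j.succ P)) (aeval v (pderiv 0 P)) (Hess P v j l) hq hjl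
    (LinearMap.range (linL E G (t j))) (LinearMap.range (linL E G p))
    ((L j).map (linL E G (t j))) ((L l).map (linL E G (t l))) (LinearMap.map_le_range)
    (hne j) (hne l) (by
      rintro _ ⟨lam, hlam, rfl⟩
      obtain ⟨D, hD⟩ := hL j lam hlam
      exact ⟨_, ⟨_, rfl⟩, (second h t p m n P v hv0 hvs hP hD hD).1⟩) (by
      rintro _ ⟨lam, hlam, rfl⟩ _ ⟨mu', hmu, rfl⟩
      obtain ⟨D, hD⟩ := hL j lam hlam
      obtain ⟨D', hD'⟩ := hL l mu' hmu
      have h2 := (second h t p m n P v hv0 hvs hP hD hD').2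
      refine ⟨-lin G (fun a => D' (lam a)) (t j), ?_, -lin G (fun a => D' (D (n a))) p, ?_, ?_⟩
      · exact Submodule.neg_mem _ ⟨_, rfl⟩
      · exact Submodule.neg_mem _ ⟨_, rfl⟩
      · rw [linL_apply, linL_apply, mul_assoc, h2]
        ring)
  have h2 := LinearMap.finrank_range_le (linL E G (t j))
  have h3 := LinearMap.finrank_range_le (linL E G p)
  rw [Module.finrank_fin_fun] at h2 h3
  rw [hfin, hfin] at h1
  have h4 := hLd j
  have h5 := hLd l
  omega

end Pool.Agent.QGT
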