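import Pool.Agent.QGT.UltraA
import Pool.Agent.QGT.CoreTC

/-! # Theorem TC over an algebraically closed field -/

set_option autoImplicit false

namespace Pool.Agent.QGT

open MvPolynomial Pool.Agent.GenTuple Pool.Agent.QT

/-- **Theorem TC.** -/
theorem genericTC {K F : Type} [Field K] [CharZero K] [IsAlgClosed K] [Field F] [Algebra K F]
    {k r b d c : ℕ} (hN : b + 3 * (k + 1 + d).choose d + 3 * c ≤ 2 * r + 1)
    (t : Fin k → Fin r → F) (ht : ∀ j, LinearIndependent K (t j)) (p : Fin b → F)
    (A : Finset (Fin k × Fin r)) (hA : k * r ≤ A.card + c) :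
    ∃ Φ : MvPolynomial A K, Φ ≠ 0 ∧
      ∀ (m : Fin k × Fin r → K) (n : Fin b → K), eval (fun a : A => m a) Φ ≠ 0 →
      (∀ (c0 : K) (c : Fin k → K), ∑ j, algebraMap K F (n j) * p j ≠
        algebraMap K F c0 + ∑ i, algebraMap K F (c i) *
          ∑ j, algebraMap K F (m (i, j)) * t i j) →
        Good K d (Fin.cons (∑ j, algebraMap K F (n j) * p j)
          fun i => ∑ j, algebraMap K F (m (i, j)) * t i j : Fin (k + 1) → F) := by
  have hcard : (lowDeg (Fin (k + 1)) d).card ≤ (k + 1 + d).choose d := by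
    have h1 := card_lowDeg_le (Fin (k + 1)) d
    rwa [Fintype.card_fin] at h1
  refine ultraA t p A fun E G _ _ _ _ _ _ _ _ _ hD m n hm hout hrel => hrel ?_
  exact coreTC hD (c := c) (by omega) A hA t ht p m n hm hout

end Pool.Agent.QGT
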