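import Pool.Agent.QGT.UltraTU
import Pool.Agent.QGT.MainTC

/-! # Theorem TC, step (1), uniform form: the degree of `Φ` is bounded by a number which
depends only on `k, r, b, d, A`

By contradiction: for every `N` there are `t N, p N` such that no `Φ` of degree at most `N` works.
Let `V` be a nonprincipal ultrafilter on `ℕ`, `K1 := UP V K`, `F1 := UP V F` and `t*, p*` the
classes of `t N, p N`. `ultraA` for `K1, F1, t*, p*` gives a `Φ*` over `K1`, of degree `D`; lift its
coefficients to families, `Φ N` of degree at most `D`, nonzero for `V`-most `N`. For `N ≥ D` there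
is a bad pair `m N, n N` with `eval (m N) (Φ N) ≠ 0`; the classes contradict the choice of `Φ*`. -/

set_option autoImplicit false

namespace Pool.Agent.QGT

open MvPolynomial Pool.Agent.GenTuple Pool.Agent.QT

theorem ultraAU {K F : Type} [Field K] [CharZero K] [IsAlgClosed K] [Field F] [Algebra K F]
    {k r b d : ℕ} (c1 c2 : Prop) (f : Fin b → Option (Fin k × Fin r))
    (A : Finset (Fin k × Fin r))
    (hcore : ∀ (K1 F1 E G : Type) [Field K1] [CharZero K1] [IsAlgClosed K1] [Field F1]
      [Algebra K1 F1] [Field E] [Field G] [IsAlgClosed E] [Algebra K1 E] [Algebra K1 G]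
      [Algebra E G] [Algebra F1 G] [IsScalarTower K1 E G] [IsScalarTower K1 F1 G]
      (_ : Disj K1 E F1 G) (t : Fin k → Fin r → F1) (_ : ∀ i, LinearIndependent K1 (t i))
      (p : Fin b → F1) (_ : c2 → LinearIndependent K1 p)
      (_ : c1 → (∀ i, Ind1 K1 (t i)) ∧ Ind1 K1 p)
      (_ : ∀ j q, f j = some q → p j = t q.1 q.2)
      (m : Fin k × Fin r → E) (n : Fin b → E) (_ : AlgebraicIndependent K1 (fun a : A => m a))
      (_ : ∀ (c0 : E) (c : Fin k → E), ∑ j, algebraMap E G (n j) * algebraMap F1 G (p j) ≠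
        algebraMap E G c0 + ∑ i, algebraMap E G (c i) *
          ∑ j, algebraMap E G (m (i, j)) * algebraMap F1 G (t i j))
      (_ : ¬ Good E d (Fin.cons (∑ j, algebraMap E G (n j) * algebraMap F1 G (p j))
        fun i => ∑ j, algebraMap E G (m (i, j)) * algebraMap F1 G (t i j) : Fin (k + 1) → G)),
        False) :
    ∃ N : ℕ, ∀ t : Fin k → Fin r → F, (∀ i, LinearIndependent K (t i)) →
      ∀ p : Fin b → F, (c2 → LinearIndependent K p) → (c1 → (∀ i, Ind1 K (t i)) ∧ Ind1 K p) →
      (∀ j q, f j = some q → p j = t q.1 q.2) →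
      ∃ Φ : MvPolynomial A K, Φ ≠ 0 ∧ Φ.totalDegree ≤ N ∧
        ∀ (m : Fin k × Fin r → K) (n : Fin b → K), eval (fun a : A => m a) Φ ≠ 0 →
        (∀ (c0 : K) (c : Fin k → K), ∑ j, algebraMap K F (n j) * p j ≠
          algebraMap K F c0 + ∑ i, algebraMap K F (c i) *
            ∑ j, algebraMap K F (m (i, j)) * t i j) →
          Good K d (Fin.cons (∑ j, algebraMap K F (n j) * p j)
            fun i => ∑ j, algebraMap K F (m (i, j)) * t i j : Fin (k + 1) → F) := by
  classical
  by_contra hne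
  let xx : (Fin k → Fin r → F) → (Fin k × Fin r → K) → Fin k → F := fun t m i =>
    ∑ j, algebraMap K F (m (i, j)) * t i j
  let yy : (Fin b → F) → (Fin b → K) → F := fun p n => ∑ j, algebraMap K F (n j) * p j
  have hN : ∀ N : ℕ, ∃ (t : Fin k → Fin r → F) (p : Fin b → F),
      (∀ i, LinearIndependent K (t i)) ∧ (c2 → LinearIndependent K p) ∧
      (c1 → (∀ i, Ind1 K (t i)) ∧ Ind1 K p) ∧ (∀ j q, f j = some q → p j = t q.1 q.2) ∧
      ∀ Φ : MvPolynomial A K, Φ ≠ 0 → Φ.totalDegree ≤ N →
        ∃ (m : Fin k × Fin r → K) (n : Fin b → K), eval (fun a : A => m a) Φ ≠ 0 ∧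
          (∀ (c0 : K) (c : Fin k → K), yy p n ≠
            algebraMap K F c0 + ∑ i, algebraMap K F (c i) * xx t m i) ∧
          ¬ Good K d (Fin.cons (yy p n) (xx t m) : Fin (k + 1) → F) := by
    intro N
    by_contra h1
    apply hne
    refine ⟨N, fun t ht p hp hc hf => ?_⟩
    by_contra h2
    apply h1
    refine ⟨t, p, ht, hp, hc, hf, fun Φ h3 h4 => ?_⟩
    by_contra h5
    apply h2
    refine ⟨Φ, h3, h4, fun m n h6 h7 => ?_⟩
    by_contra h8
    exact h5 ⟨m, n, h6, h7, h8⟩
  choose t p ht hp hc1 hf hbad using hN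
  let U : Ultrafilter ℕ := Filter.hyperfilter ℕ
  let K1 := UP U K
  let F1 := UP U F
  let _ : Algebra K1 F1 := (UP.mapHom U K F).toAlgebra
  have hKF : ∀ g : ℕ → K, algebraMap K1 F1 (cl U K g) = cl U F (fun N => algebraMap K F (g N)) :=
    fun _ => rfl
  have hcl : IsAlgClosed K1 := UP_isAlgClosed U K
  have hch : CharZero K1 := charZero_of_injective_algebraMap (algebraMap K (UP U K)).injective
  let tS : Fin k → Fin r → F1 := fun i j => cl U F (fun N => t N i j)
  let pS : Fin b → F1 := fun j => cl U F (fun N => p N j)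
  have h0 : ∀ (l : ℕ) (s : ℕ → Fin l → F) (g : ℕ → Fin l → K),
      (∑ j, algebraMap K1 F1 (cl U K fun N => g N j) * cl U F (fun N => s N j)) =
        cl U F (fun N => ∑ j, algebraMap K F (g N j) * s N j) := by
    intro l s g
    have h1 : (fun N : ℕ => ∑ j, algebraMap K F (g N j) * s N j) =
        ∑ j, (fun N : ℕ => algebraMap K F (g N j)) * (fun N => s N j) := by
      funext b
      rw [Finset.sum_apply]
      rfl
    rw [h1, map_sum]
    refine Finset.sum_congr rfl fun j _ => ?_
    rw [map_mul]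
    rfl
  have hli : ∀ (l : ℕ) (s : ℕ → Fin l → F), (∀ N, LinearIndependent K (s N)) →
      LinearIndependent K1 (fun j => cl U F (fun N => s N j)) := by
    intro l s hs
    rw [Fintype.linearIndependent_iff]
    intro g hg
    choose g' hg' using fun i => cl_surj U K (g i)
    have h1 : (∑ i, g i • cl U F (fun N => s N i)) =
        cl U F (fun N => ∑ j, algebraMap K F (g' j N) * s N j) := by
      rw [← h0 l s fun N j => g' j N]
      refine Finset.sum_congr rfl fun i _ => ?_
      rw [Algebra.smul_def, ← hg' i]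
    rw [h1, cl_eq_zero] at hg
    intro i
    rw [← hg' i, cl_eq_zero]
    filter_upwards [hg] with N hN
    exact Fintype.linearIndependent_iff.1 (hs N) (fun i => g' i N) (by
      rw [← hN]
      exact Finset.sum_congr rfl fun i _ => by rw [Algebra.smul_def]) i
  have hi1 : ∀ (l : ℕ) (s : ℕ → Fin l → F), (∀ N, Ind1 K (s N)) →
      Ind1 K1 (fun j => cl U F (fun N => s N j)) := by
    intro l s hs c0 c hc
    obtain ⟨c0', hc0⟩ := cl_surj U K c0
    choose c' hc' using fun i => cl_surj U K (c i)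
    have h1 : algebraMap K1 F1 c0 + ∑ j, algebraMap K1 F1 (c j) * cl U F (fun N => s N j) =
        cl U F (fun N => algebraMap K F (c0' N) + ∑ j, algebraMap K F (c' j N) * s N j) := by
      have h2 : (fun N => algebraMap K F (c0' N) + ∑ j, algebraMap K F (c' j N) * s N j) =
          (fun N => algebraMap K F (c0' N)) + fun N => ∑ j, algebraMap K F (c' j N) * s N j := rfl
      rw [h2, map_add, ← h0 l s fun N j => c' j N, ← hc0, hKF]
      congr 1
      refine Finset.sum_congr rfl fun i _ => ?_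
      rw [← hc' i]
    rw [h1, cl_eq_zero] at hc
    constructor
    · rw [← hc0, cl_eq_zero]
      filter_upwards [hc] with N hN
      exact (hs N _ _ hN).1
    · intro j
      rw [← hc' j, cl_eq_zero]
      filter_upwards [hc] with N hN
      exact (hs N _ _ hN).2 j
  have htS : ∀ i, LinearIndependent K1 (tS i) := fun i => hli r (fun N => t N i) fun N => ht N i
  have hpS : c2 → LinearIndependent K1 pS := fun h => hli b p fun N => hp N h
  have hcS : c1 → (∀ i, Ind1 K1 (tS i)) ∧ Ind1 K1 pS := fun h =>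
    ⟨fun i => hi1 r (fun N => t N i) fun N => (hc1 N h).1 i, hi1 b p fun N => (hc1 N h).2⟩
  have hfS : ∀ j q, f j = some q → pS j = tS q.1 q.2 := by
    intro j q hq
    change cl U F (fun N => p N j) = cl U F (fun N => t N q.1 q.2)
    congr 1
    funext N
    exact hf N j q hq
  obtain ⟨Φ, hΦ0, hΦ⟩ := ultraA (K := K1) (F := F1) (d := d) tS pS A
    fun E G _ _ _ _ _ _ _ _ _ hE m n hm hn hrel =>
      hcore K1 F1 E G hE tS htS pS hpS hcS hfS m n hm hn hrel
  -- the lift of `Φ`
  choose φ hφ using fun α : A →₀ ℕ => cl_surj U K (Φ.coeff α)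
  let ΦN : ℕ → MvPolynomial A K := fun N => ∑ α ∈ Φ.support, monomial α (φ α N)
  have hΦNc : ∀ N, ∀ α ∈ Φ.support, (ΦN N).coeff α = φ α N := by
    intro N α hα
    simp only [ΦN]
    rw [coeff_sum, Finset.sum_eq_single α]
    · rw [coeff_monomial, if_pos rfl]
    · intro β _ hβ
      rw [coeff_monomial, if_neg hβ]
    · intro h3
      exact absurd hα h3
  have hΦNd : ∀ N, (ΦN N).totalDegree ≤ Φ.totalDegree := by
    intro N
    refine (totalDegree_finsetSum _ _).trans (Finset.sup_le fun α hα => ?_)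
    exact (totalDegree_monomial_le _ _).trans (le_totalDegree hα)
  have hΦN0 : ∀ᶠ N in (U : Filter ℕ), ΦN N ≠ 0 := by
    obtain ⟨α, hα⟩ := support_nonempty.2 hΦ0
    have h1 : ¬ ∀ᶠ N in (U : Filter ℕ), φ α N = 0 := by
      rw [← cl_eq_zero U K (φ α), hφ]
      exact mem_support_iff.1 hα
    rw [← Ultrafilter.eventually_not] at h1
    filter_upwards [h1] with N hN
    intro h2
    apply hN
    rw [← hΦNc N α hα, h2, coeff_zero]
  have hev : ∀ m : ℕ → A → K,
      eval (fun q => cl U K (fun N => m N q)) Φ = cl U K (fun N => eval (m N) (ΦN N)) := by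
    intro m
    have h1 : (fun N => eval (m N) (ΦN N)) =
        ∑ α ∈ Φ.support, (φ α) * fun N => ∏ q, m N q ^ α q := by
      funext N
      rw [Finset.sum_apply]
      simp only [ΦN]
      rw [map_sum]
      refine Finset.sum_congr rfl fun α _ => ?_
      rw [eval_monomial, Finsupp.prod_fintype _ _ (fun _ => pow_zero _)]
      rfl
    rw [h1, map_sum, eval_eq']
    refine Finset.sum_congr rfl fun α _ => ?_
    rw [map_mul, hφ]
    congr 1
    have h2 : (fun N => ∏ q, m N q ^ α q) = ∏ q, (fun N => m N q) ^ α q := by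
      funext N
      rw [Finset.prod_apply]
      rfl
    rw [h2, map_prod]
    simp only [map_pow]
  -- the bad pairs
  have hlarge : ∀ᶠ N in (U : Filter ℕ), Φ.totalDegree ≤ N := by
    have h1 : (U : Filter ℕ) ≤ Filter.atTop := by
      rw [← Nat.cofinite_eq_atTop]
      exact Filter.hyperfilter_le_cofinite
    exact h1 (Filter.eventually_ge_atTop Φ.totalDegree)
  have hmn : ∀ N, ∃ (m : Fin k × Fin r → K) (n : Fin b → K),
      ΦN N ≠ 0 → Φ.totalDegree ≤ N → eval (fun a : A => m a) (ΦN N) ≠ 0 ∧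
          (∀ (c0 : K) (c : Fin k → K), yy (p N) n ≠
            algebraMap K F c0 + ∑ i, algebraMap K F (c i) * xx (t N) m i) ∧
          ¬ Good K d (Fin.cons (yy (p N) n) (xx (t N) m) : Fin (k + 1) → F) := by
    intro N
    by_cases h1 : ΦN N ≠ 0 ∧ Φ.totalDegree ≤ N
    · obtain ⟨m, n, h2⟩ := hbad N (ΦN N) h1.1 ((hΦNd N).trans h1.2)
      exact ⟨m, n, fun _ _ => h2⟩
    · exact ⟨0, 0, fun h2 h3 => absurd ⟨h2, h3⟩ h1⟩
  choose m n hmn using hmn
  have hall : ∀ᶠ N in (U : Filter ℕ), eval (fun a : A => m N a) (ΦN N) ≠ 0 ∧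
          (∀ (c0 : K) (c : Fin k → K), yy (p N) (n N) ≠
            algebraMap K F c0 + ∑ i, algebraMap K F (c i) * xx (t N) (m N) i) ∧
          ¬ Good K d (Fin.cons (yy (p N) (n N)) (xx (t N) (m N)) : Fin (k + 1) → F) := by
    filter_upwards [hΦN0, hlarge] with N h1 h2
    exact hmn N h1 h2
  let mS : Fin k × Fin r → K1 := fun q => cl U K (fun N => m N q)
  let nS : Fin b → K1 := fun j => cl U K (fun N => n N j)
  have hx : ∀ i, (∑ j, algebraMap K1 F1 (mS (i, j)) * tS i j) =
      cl U F (fun N => xx (t N) (m N) i) := fun i => h0 r (fun N => t N i) fun N j => m N (i, j)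
  have hy0 : (∑ j, algebraMap K1 F1 (nS j) * pS j) = cl U F (fun N => yy (p N) (n N)) := h0 b p n
  -- the relations
  let P : ℕ → MvPolynomial (Fin (k + 1)) K := fun N =>
    if h : ∃ P : MvPolynomial (Fin (k + 1)) K, P.totalDegree ≤ d ∧
      aeval (Fin.cons (yy (p N) (n N)) (xx (t N) (m N)) : Fin (k + 1) → F) P = 0 ∧ P ≠ 0 then
      h.choose else 0
  have hP : ∀ᶠ N in (U : Filter ℕ), aeval (Fin.cons (yy (p N) (n N)) (xx (t N) (m N)) :
      Fin (k + 1) → F) (P N) = 0 ∧ P N ≠ 0 := by
    filter_upwards [hall] with N hN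
    have h1 := hN.2.2
    unfold Good at h1
    push Not at h1
    have h2 : P N = h1.choose := dif_pos h1
    rw [h2]
    exact h1.choose_spec.2
  have hPd : ∀ N, (P N).totalDegree ≤ d := by
    intro N
    simp only [P]
    split_ifs with h
    · exact h.choose_spec.1
    · rw [totalDegree_zero]
      exact Nat.zero_le _
  have hm1 : eval (fun a : A => mS a) Φ ≠ 0 := by
    intro h1
    rw [hev fun N a => m N a, cl_eq_zero] at h1
    obtain ⟨N, h2, h3⟩ := (h1.and hall).exists
    exact h3.1 h2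
  have hG := hΦ mS nS hm1 (by
    intro c0 c hc
    obtain ⟨c0', hc0⟩ := cl_surj U K c0
    choose c' hc' using fun i => cl_surj U K (c i)
    have h1 : algebraMap K1 F1 c0 + ∑ i, algebraMap K1 F1 (c i) *
          ∑ j, algebraMap K1 F1 (mS (i, j)) * tS i j =
        cl U F (fun N => algebraMap K F (c0' N) +
          ∑ i, algebraMap K F (c' i N) * xx (t N) (m N) i) := by
      have h2 : (fun N => algebraMap K F (c0' N) +
          ∑ i, algebraMap K F (c' i N) * xx (t N) (m N) i) =
          (fun N => algebraMap K F (c0' N)) +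
            ∑ i, (fun N => algebraMap K F (c' i N)) * (fun N => xx (t N) (m N) i) := by
        funext N
        rw [Pi.add_apply, Finset.sum_apply]
        rfl
      rw [h2, map_add, map_sum, ← hc0, hKF]
      congr 1
      refine Finset.sum_congr rfl fun i _ => ?_
      rw [map_mul, ← hc' i, hKF, hx i]
    rw [hy0, h1, ← sub_eq_zero, ← map_sub, cl_eq_zero] at hc
    obtain ⟨N, h3, h4⟩ := (hc.and hall).exists
    exact h4.2.1 (c0' N) (fun i => c' i N) (sub_eq_zero.1 h3))
  let Q : MvPolynomial (Fin (k + 1)) K1 := ∑ α ∈ lowDeg (Fin (k + 1)) d,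
    monomial α (cl U K (fun N => (P N).coeff α))
  have hQc : ∀ α ∈ lowDeg (Fin (k + 1)) d, Q.coeff α = cl U K (fun N => (P N).coeff α) := by
    intro α hα
    simp only [Q]
    rw [coeff_sum, Finset.sum_eq_single α]
    · rw [coeff_monomial, if_pos rfl]
    · intro β _ hβ
      rw [coeff_monomial, if_neg hβ]
    · intro h3
      exact absurd hα h3
  have hQd : Q.totalDegree ≤ d := by
    refine (totalDegree_finsetSum _ _).trans (Finset.sup_le fun α hα => ?_)
    refine (totalDegree_monomial_le _ _).trans ?_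
    rw [Finsupp.sum_fintype _ _ (fun _ => rfl)]
    exact mem_lowDeg.1 hα
  have hyv : (Fin.cons (∑ j, algebraMap K1 F1 (nS j) * pS j)
      fun i => ∑ j, algebraMap K1 F1 (mS (i, j)) * tS i j : Fin (k + 1) → F1) =
        fun l => cl U F (fun N => (Fin.cons (yy (p N) (n N)) (xx (t N) (m N)) :
          Fin (k + 1) → F) l) := by
    funext l
    refine Fin.cases ?_ (fun l => ?_) l
    · rw [Fin.cons_zero, hy0]
      rfl
    · rw [Fin.cons_succ, hx l]
      rfl
  refine absurd (hG Q hQd ?_) ?_
  · rw [hyv, aeval_eq_sum d _ Q hQd]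
    have h1 : ∀ α ∈ lowDeg (Fin (k + 1)) d,
        Q.coeff α • mon (fun l => cl U F (fun N => (Fin.cons (yy (p N) (n N)) (xx (t N) (m N)) :
          Fin (k + 1) → F) l)) α =
        cl U F (fun N => (P N).coeff α • mon (Fin.cons (yy (p N) (n N)) (xx (t N) (m N)) :
          Fin (k + 1) → F) α) := by
      intro α hα
      rw [mon_cl U (fun N => (Fin.cons (yy (p N) (n N)) (xx (t N) (m N)) : Fin (k + 1) → F)),
        hQc α hα, Algebra.smul_def, hKF, ← map_mul]
      congr 1
      funext b
      rw [Algebra.smul_def]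
      rfl
    rw [Finset.sum_congr rfl h1, ← map_sum, cl_eq_zero]
    filter_upwards [hP] with N hN
    rw [Finset.sum_apply, ← aeval_eq_sum d _ (P N) (hPd N)]
    exact hN.1
  · intro hQ
    have h1 : ∀ α ∈ lowDeg (Fin (k + 1)) d, ∀ᶠ N in (U : Filter ℕ), (P N).coeff α = 0 := by
      intro α hα
      rw [← cl_eq_zero U K (fun N => (P N).coeff α), ← hQc α hα, hQ, coeff_zero]
    have h2 := (Filter.eventually_all_finset (lowDeg (Fin (k + 1)) d)).2 h1
    obtain ⟨N, hN, hN2⟩ := (h2.and hP).exists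
    apply hN2.2
    ext α
    rw [coeff_zero]
    by_cases hα : α ∈ (P N).support
    · refine hN α ?_
      rw [mem_lowDeg]
      have h2 := le_totalDegree hα
      rw [Finsupp.sum_fintype _ _ (fun _ => rfl)] at h2
      exact h2.trans (hPd N)
    · exact notMem_support_iff.1 hα

/-- **Theorem TC**, uniform form. -/
theorem genericTCU (K F : Type) [Field K] [CharZero K] [IsAlgClosed K] [Field F] [Algebra K F]
    {k r b d c : ℕ} (hN : b + 3 * (k + 1 + d).choose d + 3 * c ≤ 2 * r + 1) :
    ∃ N : ℕ, ∀ t : Fin k → Fin r → F, (∀ j, LinearIndependent K (t j)) → ∀ p : Fin b → F,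
      ∀ A : Finset (Fin k × Fin r), k * r ≤ A.card + c →
      ∃ Φ : MvPolynomial A K, Φ ≠ 0 ∧ Φ.totalDegree ≤ N ∧
        ∀ (m : Fin k × Fin r → K) (n : Fin b → K), eval (fun a : A => m a) Φ ≠ 0 →
        (∀ (c0 : K) (c : Fin k → K), ∑ j, algebraMap K F (n j) * p j ≠
          algebraMap K F c0 + ∑ i, algebraMap K F (c i) *
            ∑ j, algebraMap K F (m (i, j)) * t i j) →
          Good K d (Fin.cons (∑ j, algebraMap K F (n j) * p j)
            fun i => ∑ j, algebraMap K F (m (i, j)) * t i j : Fin (k + 1) → F) := by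
  classical
  have hcard : (lowDeg (Fin (k + 1)) d).card ≤ (k + 1 + d).choose d := by
    have h1 := card_lowDeg_le (Fin (k + 1)) d
    rwa [Fintype.card_fin] at h1
  have h : ∀ A : Finset (Fin k × Fin r), ∃ N : ℕ, k * r ≤ A.card + c →
      ∀ t : Fin k → Fin r → F, (∀ j, LinearIndependent K (t j)) → ∀ p : Fin b → F,
      ∃ Φ : MvPolynomial A K, Φ ≠ 0 ∧ Φ.totalDegree ≤ N ∧
        ∀ (m : Fin k × Fin r → K) (n : Fin b → K), eval (fun a : A => m a) Φ ≠ 0 →
        (∀ (c0 : K) (c : Fin k → K), ∑ j, algebraMap K F (n j) * p j ≠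
          algebraMap K F c0 + ∑ i, algebraMap K F (c i) *
            ∑ j, algebraMap K F (m (i, j)) * t i j) →
          Good K d (Fin.cons (∑ j, algebraMap K F (n j) * p j)
            fun i => ∑ j, algebraMap K F (m (i, j)) * t i j : Fin (k + 1) → F) := by
    intro A
    by_cases hA : k * r ≤ A.card + c
    · obtain ⟨N, hN'⟩ := ultraAU (K := K) (F := F) (d := d) False False (fun _ : Fin b => none) A
        fun K1 F1 E G _ _ _ _ _ _ _ _ _ _ _ _ _ _ hD t ht p _ _ _ m n hm hout hrel =>
          hrel (coreTC hD (c := c) (by omega) A hA t ht p m n hm hout)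
      refine ⟨N, fun _ t ht p => hN' t ht p (fun h => h.elim) (fun h => h.elim) ?_⟩
      intro j q hq
      exact absurd hq (by simp)
    · exact ⟨0, fun h => absurd h hA⟩
  choose N hN' using h
  refine ⟨Finset.univ.sup N, fun t ht p A hA => ?_⟩
  obtain ⟨Φ, h1, h2, h3⟩ := hN' A hA t ht p
  exact ⟨Φ, h1, h2.trans (Finset.le_sup (f := N) (Finset.mem_univ A)), h3⟩

end Pool.Agent.QGT
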