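import Pool.Agent.QGen.Hom
import Pool.Agent.QGT.UltraAU
import Pool.Agent.QGT.CntU

/-! # Theorem TC over `ℂ`, homogeneous and uniform form -/

namespace Pool.Agent.QGT

open MvPolynomial Module Submodule Pool.Agent.GenTuple Pool.Agent.QT Pool.Agent.QS
  Pool.Agent.QNH

/-- The `m` for which `w`, the `k` numbers `x_i = ∑ m_(i,j) v_(i,j)` and `y` satisfy a nonzero
homogeneous relation of degree `d` with algebraic coefficients, for some `y` in `W'` which is not a
combination of `w, x₁, …, x_k`. -/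
def Exc (d : ℕ) {k r : ℕ} (w : ℂ) (v : Fin k → Fin r → ℂ)
    (W' : Submodule (algebraicClosure ℚ ℂ) ℂ) : Set (Fin k × Fin r → algebraicClosure ℚ ℂ) :=
  {m | ∃ y ∈ W', y ∉ span (algebraicClosure ℚ ℂ)
      (insert w (Set.range fun i => ∑ j, m (i, j) • v i j)) ∧
    ∃ P : MvPolynomial (Fin (k + 2)) ℂ, P ≠ 0 ∧ P.IsHomogeneous d ∧
      (∀ e, IsAlgebraic ℚ (P.coeff e)) ∧
      eval (Fin.cons w (Fin.cons y fun i => ∑ j, m (i, j) • v i j : Fin (k + 1) → ℂ) :
        Fin (k + 1 + 1) → ℂ) P = 0}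

/-- `E` lies in an algebraic set of dimension less than `k r - c` (any `k r - c` coordinates
satisfy a nonzero equation of degree at most `N`), and for every finite set `S` of algebraic
numbers at most `N |S| ^ (k r - c - 1)` points of `E` have all coordinates in `S`. -/
def Thin (N c : ℕ) {k r : ℕ} (E : Set (Fin k × Fin r → algebraicClosure ℚ ℂ)) : Prop :=
  (∀ A : Finset (Fin k × Fin r), k * r ≤ A.card + c →
    ∃ Φ : MvPolynomial A (algebraicClosure ℚ ℂ), Φ ≠ 0 ∧ Φ.totalDegree ≤ N ∧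
      ∀ m ∈ E, eval (fun a : A => m a) Φ = 0) ∧
  ∀ S : Finset (algebraicClosure ℚ ℂ),
    {m | m ∈ E ∧ ∀ q, m q ∈ S}.ncard ≤ N * S.card ^ (k * r - c - 1)

/-- division by `w` -/
theorem transfer {k r b d N : ℕ} {w : ℂ} (hw : w ≠ 0) (v : Fin k → Fin r → ℂ)
    {W' : Submodule (algebraicClosure ℚ ℂ) ℂ} (B : Basis (Fin b) (algebraicClosure ℚ ℂ) W')
    (A : Finset (Fin k × Fin r))
    (h : ∃ Φ : MvPolynomial A (algebraicClosure ℚ ℂ), Φ ≠ 0 ∧
      Φ.totalDegree ≤ N ∧
        ∀ (m : Fin k × Fin r → algebraicClosure ℚ ℂ) (n : Fin b → algebraicClosure ℚ ℂ),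
          eval (fun a : A => m a) Φ ≠ 0 →
          (∀ (c0 : algebraicClosure ℚ ℂ) (c : Fin k → algebraicClosure ℚ ℂ),
          ∑ j, algebraMap (algebraicClosure ℚ ℂ) ℂ (n j) * ((B j : ℂ) / w) ≠
          algebraMap (algebraicClosure ℚ ℂ) ℂ c0 +
            ∑ i, algebraMap (algebraicClosure ℚ ℂ) ℂ (c i) *
            ∑ j, algebraMap (algebraicClosure ℚ ℂ) ℂ (m (i, j)) * (v i j / w)) →
          Good (algebraicClosure ℚ ℂ) d
            (Fin.cons (∑ j, algebraMap (algebraicClosure ℚ ℂ) ℂ (n j) * ((B j : ℂ) / w))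
            fun i => ∑ j, algebraMap (algebraicClosure ℚ ℂ) ℂ (m (i, j)) * (v i j / w) :
              Fin (k + 1) → ℂ)) :
    ∃ Φ : MvPolynomial A (algebraicClosure ℚ ℂ), Φ ≠ 0 ∧
      Φ.totalDegree ≤ N ∧ ∀ m ∈ Exc d w v W', eval (fun a : A => m a) Φ = 0 := by
  classical
  obtain ⟨Φ, h1, h2, h3⟩ := h
  refine ⟨Φ, h1, h2, ?_⟩
  rintro m ⟨y, hy, hy', P, hP, hh, ha, he⟩
  by_contra hm
  obtain ⟨Q, hQ0, hQd, hQa, hQe⟩ := QGen.dehom hw hP hh ha he
  let n : Fin b → algebraicClosure ℚ ℂ := fun j => B.repr ⟨y, hy⟩ j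
  have hn : ∑ j, n j • B j = ⟨y, hy⟩ := B.sum_repr _
  have hyn : y = ∑ j, algebraMap (algebraicClosure ℚ ℂ) ℂ (n j) * (B j : ℂ) := by
    have h5 := congrArg (fun z : W' => (z : ℂ)) hn
    simp only [Submodule.coe_sum] at h5
    exact h5.symm
  have hyw : y / w = ∑ j, algebraMap (algebraicClosure ℚ ℂ) ℂ (n j) * ((B j : ℂ) / w) := by
    rw [hyn, Finset.sum_div]
    exact Finset.sum_congr rfl fun j _ => mul_div_assoc _ _ _
  have hxw : ∀ i, (∑ j, m (i, j) • v i j) / w =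
      ∑ j, algebraMap (algebraicClosure ℚ ℂ) ℂ (m (i, j)) * (v i j / w) := by
    intro i
    rw [Finset.sum_div]
    exact Finset.sum_congr rfl fun j _ => by
      rw [Algebra.smul_def]
      exact mul_div_assoc _ _ _
  have hg := h3 m n hm (fun c0 c hc => hy' (by
    have h6 : y = c0 • w + ∑ i, c i • ∑ j, m (i, j) • v i j := by
      have h7 : y = (y / w) * w := (div_mul_cancel₀ _ hw).symm
      rw [h7, hyw, hc, add_mul, Finset.sum_mul]
      congr 1
      refine Finset.sum_congr rfl fun i _ => ?_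
      rw [← hxw, mul_assoc, div_mul_cancel₀ _ hw]
      rfl
    rw [h6]
    exact add_mem (smul_mem _ _ (subset_span (Set.mem_insert _ _)))
      (Submodule.sum_mem _ fun i _ =>
        smul_mem _ _ (subset_span (Set.mem_insert_of_mem _ ⟨i, rfl⟩)))))
  have hbad : BadC d (fun i => ∑ j, algebraMap (algebraicClosure ℚ ℂ) ℂ (m (i, j)) * (v i j / w))
      (∑ j, algebraMap (algebraicClosure ℚ ℂ) ℂ (n j) * ((B j : ℂ) / w)) := by
    refine ⟨Q, hQ0, hQd, hQa, ?_⟩
    rw [← hQe]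
    congr 2
    funext i
    refine Fin.cases ?_ (fun i => ?_) i
    · rw [Fin.cons_zero, Fin.cons_zero, hyw]
    · rw [Fin.cons_succ, Fin.cons_succ, hxw]
  exact (badC_iff d _ _).1 hbad hg

theorem li_div {ι : Type} [Fintype ι] {w : ℂ} (hw : w ≠ 0) {v : ι → ℂ}
    (hv : LinearIndependent (algebraicClosure ℚ ℂ) v) :
    LinearIndependent (algebraicClosure ℚ ℂ) (fun i => v i / w) := by
  rw [Fintype.linearIndependent_iff] at hv ⊢
  intro g hg
  refine hv g ?_
  have := congrArg (fun z => z * w) hg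
  simp only [zero_mul, Finset.sum_mul, smul_mul_assoc] at this
  rw [← this]
  exact Finset.sum_congr rfl fun i _ => by rw [div_mul_cancel₀ _ hw]

theorem ind1_div {b : ℕ} {w : ℂ} (hw : w ≠ 0) {v : Fin b → ℂ}
    (hv : LinearIndependent (algebraicClosure ℚ ℂ) v)
    (hwv : w ∉ span (algebraicClosure ℚ ℂ) (Set.range v)) :
    Ind1 (algebraicClosure ℚ ℂ) (fun i => v i / w) := by
  intro c0 c hc
  have h1 : algebraMap (algebraicClosure ℚ ℂ) ℂ c0 * w + ∑ j, c j • v j = 0 := by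
    have := congrArg (fun z => z * w) hc
    simp only [zero_mul, add_mul, Finset.sum_mul, mul_assoc, div_mul_cancel₀ _ hw] at this
    rw [← this]
    rfl
  have hc0 : c0 = 0 := by
    by_contra hne
    apply hwv
    have h2 : w = c0⁻¹ • (-(∑ j, c j • v j)) := by
      have h3 : algebraMap (algebraicClosure ℚ ℂ) ℂ c0 ≠ 0 := by
        rwa [Ne, map_eq_zero]
      rw [Algebra.smul_def, map_inv₀, eq_inv_mul_iff_mul_eq₀ h3]
      linear_combination h1
    rw [h2]
    exact smul_mem _ _ (neg_mem (Submodule.sum_mem _ fun j _ =>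
      smul_mem _ _ (subset_span ⟨j, rfl⟩)))
  rw [hc0, map_zero, zero_mul, zero_add] at h1
  exact ⟨hc0, Fintype.linearIndependent_iff.1 hv c h1⟩

theorem ncard_eq {K σ : Type} [Fintype σ] (S : Finset K) (B : Set (σ → K)) :
    {m | m ∈ B ∧ ∀ q, m q ∈ S}.ncard = cntU S B := by
  classical
  unfold cntU
  rw [← Set.ncard_coe_finset]
  refine congrArg Set.ncard (Set.ext fun m => ?_)
  rw [Finset.mem_coe, Finset.mem_filter, Fintype.mem_piFinset]
  exact and_comm

/-- the zero condition for all large sets of coordinates gives `Thin` -/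
theorem thin_of {k r N c : ℕ} (hk : 0 < k) (hr : 0 < r) (hc : c < k * r) :
    ∃ C : ℕ, ∀ E : Set (Fin k × Fin r → algebraicClosure ℚ ℂ),
      (∀ A : Finset (Fin k × Fin r), k * r ≤ A.card + c →
        ∃ Φ : MvPolynomial A (algebraicClosure ℚ ℂ), Φ ≠ 0 ∧ Φ.totalDegree ≤ N ∧
          ∀ m ∈ E, eval (fun a : A => m a) Φ = 0) → Thin C c E := by
  classical
  obtain ⟨C, hC⟩ := cntU_le (Fin k × Fin r) N (k * r - c)
  refine ⟨N + C, fun E hE => ⟨fun A hA => ?_, fun S => ?_⟩⟩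
  · obtain ⟨Φ, h1, h2, h3⟩ := hE A hA
    exact ⟨Φ, h1, h2.trans (Nat.le_add_right _ _), h3⟩
  have h1 := hC (algebraicClosure ℚ ℂ) E (fun A hA => by
    obtain ⟨Φ, h1, h2, h3⟩ := hE A (by omega)
    refine ⟨rename Subtype.val Φ, ?_, (totalDegree_rename_le _ _).trans h2, ?_, ?_⟩
    · intro h
      exact h1 (rename_injective _ Subtype.val_injective (by rw [h, map_zero]))
    · intro i hi
      obtain ⟨a, _, rfl⟩ := Finset.mem_image.1 (vars_rename _ _ hi)
      exact a.2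
    · intro l hl
      rw [eval_rename]
      exact h3 l hl) S
  rcases S.eq_empty_or_nonempty with rfl | hS
  · have h2 : {m | m ∈ E ∧ ∀ q, m q ∈ (∅ : Finset (algebraicClosure ℚ ℂ))} = ∅ := by
      ext m
      constructor
      · rintro ⟨_, h⟩
        exact absurd (h (⟨0, hk⟩, ⟨0, hr⟩)) (Finset.notMem_empty _)
      · intro h
        exact absurd h (Set.notMem_empty _)
    rw [h2, Set.ncard_empty]
    exact Nat.zero_le _
  · have h3 : S.card ^ (k * r - c) = S.card ^ (k * r - c - 1) * S.card := by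
      rw [← pow_succ]
      congr 1
      omega
    rw [h3, ← mul_assoc] at h1
    have h4 := Nat.le_of_mul_le_mul_right h1 hS.card_pos
    rw [ncard_eq]
    exact h4.trans (Nat.mul_le_mul_right _ (Nat.le_add_left _ _))

/-- **Theorem TC.** -/
theorem theoremT {k r b d c : ℕ} (hk : 0 < k)
    (hN : b + 3 * (k + 1 + d).choose d + 3 * c ≤ 2 * r + 1) :
    ∃ C : ℕ, ∀ v : Fin k → Fin r → ℂ,
      (∀ i, LinearIndependent (algebraicClosure ℚ ℂ) (v i)) →
      ∀ W' : Submodule (algebraicClosure ℚ ℂ) ℂ, FiniteDimensional (algebraicClosure ℚ ℂ) W' →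
        finrank (algebraicClosure ℚ ℂ) W' ≤ b → ∀ w : ℂ, w ≠ 0 → Thin C c (Exc d w v W') := by
  have hcl : IsAlgClosed (algebraicClosure ℚ ℂ) :=
    (algebraicClosure.isAlgClosure ℚ ℂ).isAlgClosed
  have hN0 : 0 < (k + 1 + d).choose d := Nat.choose_pos (by omega)
  have hr : 0 < r := by omega
  have hc : c < k * r := by
    have h1 : r ≤ k * r := Nat.le_mul_of_pos_left r hk
    omega
  have h : ∀ b' : Fin (b + 1), ∃ N : ℕ, ∀ t : Fin k → Fin r → ℂ,
      (∀ i, LinearIndependent (algebraicClosure ℚ ℂ) (t i)) → ∀ p : Fin b' → ℂ,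
      ∀ A : Finset (Fin k × Fin r), k * r ≤ A.card + c →
      ∃ Φ : MvPolynomial A (algebraicClosure ℚ ℂ), Φ ≠ 0 ∧ Φ.totalDegree ≤ N ∧
        ∀ (m : Fin k × Fin r → algebraicClosure ℚ ℂ) (n : Fin b' → algebraicClosure ℚ ℂ),
        eval (fun a : A => m a) Φ ≠ 0 →
        (∀ (c0 : algebraicClosure ℚ ℂ) (c : Fin k → algebraicClosure ℚ ℂ),
          ∑ j, algebraMap (algebraicClosure ℚ ℂ) ℂ (n j) * p j ≠
          algebraMap (algebraicClosure ℚ ℂ) ℂ c0 +
            ∑ i, algebraMap (algebraicClosure ℚ ℂ) ℂ (c i) *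
            ∑ j, algebraMap (algebraicClosure ℚ ℂ) ℂ (m (i, j)) * t i j) →
          Good (algebraicClosure ℚ ℂ) d
            (Fin.cons (∑ j, algebraMap (algebraicClosure ℚ ℂ) ℂ (n j) * p j)
            fun i => ∑ j, algebraMap (algebraicClosure ℚ ℂ) ℂ (m (i, j)) * t i j :
              Fin (k + 1) → ℂ) := fun b' =>
    genericTCU (algebraicClosure ℚ ℂ) ℂ (b := b') (by
      have := b'.2
      omega)
  choose N hN' using h
  obtain ⟨C, hC⟩ := thin_of (N := ∑ b', N b') hk hr hc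
  refine ⟨C, fun v hv W' hfd hb w hw => hC _ fun A hA => ?_⟩
  let B := Module.finBasis (algebraicClosure ℚ ℂ) W'
  refine transfer hw v B A ?_
  obtain ⟨Φ, h1, h2, h3⟩ := hN' ⟨finrank (algebraicClosure ℚ ℂ) W', by omega⟩
    (fun i j => v i j / w) (fun i => li_div hw (hv i)) (fun j => (B j : ℂ) / w) A hA
  exact ⟨Φ, h1, h2.trans (Finset.single_le_sum (f := N) (fun _ _ => Nat.zero_le _)
    (Finset.mem_univ _)), h3⟩

end Pool.Agent.QGT
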