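import Mathlib

set_option autoImplicit false

/-!
# Linear Cauchy-Davenport over an algebraically closed field
-/

namespace Pool.Agent.QGT

open Module Submodule

variable {E G : Type*} [Field E] [Field G] [Algebra E G]

theorem fd_mul (A B : Submodule E G) [FiniteDimensional E A] [FiniteDimensional E B] :
    FiniteDimensional E (A * B : Submodule E G) := by
  have hA : A.FG := (Submodule.fg_iff_finiteDimensional A).2 inferInstance
  have hB : B.FG := (Submodule.fg_iff_finiteDimensional B).2 inferInstance
  exact (Submodule.fg_iff_finiteDimensional _).1 (hA.mul hB)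

/-- multiplication by `z` -/
theorem sc_eq (z : G) (X : Submodule E G) :
    (span E {z} * X : Submodule E G) = X.map (LinearMap.mulLeft E z) := by
  apply le_antisymm
  · rw [Submodule.mul_le]
    intro a ha b hb
    obtain ⟨c, rfl⟩ := Submodule.mem_span_singleton.1 ha
    refine ⟨c • b, X.smul_mem c hb, ?_⟩
    rw [LinearMap.mulLeft_apply, mul_smul_comm, smul_mul_assoc]
  · rintro _ ⟨b, hb, rfl⟩
    exact Submodule.mul_mem_mul (Submodule.mem_span_singleton_self z) hb

theorem finrank_sc {z : G} (hz : z ≠ 0) (X : Submodule E G) :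
    finrank E (span E {z} * X : Submodule E G) = finrank E X := by
  rw [sc_eq]
  exact (Submodule.equivMapOfInjective (LinearMap.mulLeft E z)
    (fun a b h => mul_left_cancel₀ hz h) X).finrank_eq.symm

theorem le_finrank_mul (A X : Submodule E G) [FiniteDimensional E A] [FiniteDimensional E X]
    (hA : A ≠ ⊥) : finrank E X ≤ finrank E (A * X : Submodule E G) := by
  obtain ⟨a, ha, ha0⟩ := Submodule.exists_mem_ne_zero_of_ne_bot hA
  have := fd_mul A X
  rw [← finrank_sc ha0 X]
  exact Submodule.finrank_mono (mul_le_mul' ((Submodule.span_singleton_le_iff_mem a A).2 ha)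
    le_rfl)

theorem submod (A X Y : Submodule E G) [FiniteDimensional E A] [FiniteDimensional E X]
    [FiniteDimensional E Y] :
    finrank E (A * (X ⊔ Y) : Submodule E G) + finrank E (A * (X ⊓ Y) : Submodule E G) ≤
      finrank E (A * X : Submodule E G) + finrank E (A * Y : Submodule E G) := by
  have := fd_mul A X
  have := fd_mul A Y
  rw [← Submodule.finrank_sup_add_finrank_inf_eq (A * X) (A * Y), Submodule.mul_sup]
  refine Nat.add_le_add_left (Submodule.finrank_mono ?_) _
  exact le_inf (mul_le_mul' le_rfl inf_le_left) (mul_le_mul' le_rfl inf_le_right)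

theorem mem_one_of_alg [IsAlgClosed E] (X : Submodule E G) [FiniteDimensional E X]
    (h1 : (1 : G) ∈ X) (hm : ∀ a ∈ X, ∀ b ∈ X, a * b ∈ X) : X = span E {(1 : G)} := by
  apply le_antisymm
  · intro x hx
    let S : Subalgebra E G := X.toSubalgebra h1 fun a b ha hb => hm a ha b hb
    have hS : S.toSubmodule.FG := by
      have : S.toSubmodule = X := Submodule.toSubalgebra_toSubmodule X h1 _
      rw [this]
      exact (Submodule.fg_iff_finiteDimensional X).2 inferInstance
    have hi : IsIntegral E x := IsIntegral.of_mem_of_fg S hS x hx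
    have hd : (minpoly E x).degree = 1 := IsAlgClosed.degree_eq_one_of_irreducible E
      (minpoly.irreducible hi)
    obtain ⟨c, rfl⟩ := minpoly.mem_range_of_degree_eq_one E x hd
    rw [Submodule.mem_span_singleton]
    exact ⟨c, (Algebra.algebraMap_eq_smul_one c).symm⟩
  · exact (Submodule.span_singleton_le_iff_mem _ _).2 h1

/-- **Linear Cauchy-Davenport.** -/
theorem cd [IsAlgClosed E] (A B : Submodule E G) [FiniteDimensional E A] [FiniteDimensional E B]
    (hA : A ≠ ⊥) (hB : B ≠ ⊥) :
    finrank E A + finrank E B ≤ finrank E (A * B : Submodule E G) + 1 := by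
  classical
  -- the minimum of `dim AX - dim X`
  have hex : ∃ m : ℕ, ∃ X : Submodule E G, FiniteDimensional E X ∧ X ≠ ⊥ ∧
      finrank E (A * X : Submodule E G) = finrank E X + m := by
    refine ⟨finrank E (A * B : Submodule E G) - finrank E B, B, inferInstance, hB, ?_⟩
    have := le_finrank_mul A B hA
    omega
  set m := Nat.find hex with hm
  have hmin : ∀ X : Submodule E G, FiniteDimensional E X → X ≠ ⊥ →
      finrank E X + m ≤ finrank E (A * X : Submodule E G) := by
    intro X hX hX0
    have h1 := le_finrank_mul A X hA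
    by_contra hlt
    push Not at hlt
    refine Nat.find_min hex (m := finrank E (A * X : Submodule E G) - finrank E X) ?_
      ⟨X, hX, hX0, by omega⟩
    omega
  have hex2 : ∃ n : ℕ, ∃ X : Submodule E G, FiniteDimensional E X ∧ X ≠ ⊥ ∧
      finrank E (A * X : Submodule E G) = finrank E X + m ∧ finrank E X = n := by
    obtain ⟨X, hX, hX0, h⟩ := Nat.find_spec hex
    exact ⟨_, X, hX, hX0, h, rfl⟩
  obtain ⟨X₀, hX₀, hX₀0, h0, hn⟩ := Nat.find_spec hex2
  have hmin2 : ∀ X : Submodule E G, FiniteDimensional E X → X ≠ ⊥ →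
      finrank E (A * X : Submodule E G) = finrank E X + m → finrank E X₀ ≤ finrank E X := by
    intro X hX hX0 h
    rw [hn]
    exact Nat.find_min' hex2 ⟨X, hX, hX0, h, rfl⟩
  -- scale
  obtain ⟨a, ha, ha0⟩ := Submodule.exists_mem_ne_zero_of_ne_bot hX₀0
  set X : Submodule E G := span E {a⁻¹} * X₀ with hXd
  have hXf : FiniteDimensional E X := fd_mul _ _
  have hXr : finrank E X = finrank E X₀ := finrank_sc (inv_ne_zero ha0) X₀
  have h1X : (1 : G) ∈ X := by
    rw [hXd, ← inv_mul_cancel₀ ha0]
    exact Submodule.mul_mem_mul (Submodule.mem_span_singleton_self _) ha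
  have hX0 : X ≠ ⊥ := fun h => by
    rw [h, Submodule.mem_bot] at h1X
    exact one_ne_zero h1X
  have hsc : ∀ (z : G), z ≠ 0 → ∀ Y : Submodule E G,
      finrank E (A * (span E {z} * Y) : Submodule E G) = finrank E (A * Y : Submodule E G) := by
    intro z hz Y
    rw [mul_left_comm, finrank_sc hz]
  have hXm : finrank E (A * X : Submodule E G) = finrank E X + m := by
    rw [hXd, hsc _ (inv_ne_zero ha0), h0, finrank_sc (inv_ne_zero ha0)]
  -- `X` is an algebra
  have hmul : ∀ z ∈ X, ∀ x ∈ X, z * x ∈ X := by
    intro z hz x hx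
    by_cases hz0 : z = 0
    · rw [hz0, zero_mul]
      exact X.zero_mem
    set Y : Submodule E G := span E {z⁻¹} * X with hY
    have hYf : FiniteDimensional E Y := fd_mul _ _
    have hYr : finrank E Y = finrank E X := finrank_sc (inv_ne_zero hz0) X
    have hYm : finrank E (A * Y : Submodule E G) = finrank E X + m := by
      rw [hY, hsc _ (inv_ne_zero hz0), hXm]
    have h1Y : (1 : G) ∈ Y := by
      rw [hY, ← inv_mul_cancel₀ hz0]
      exact Submodule.mul_mem_mul (Submodule.mem_span_singleton_self _) hz
    have hI0 : X ⊓ Y ≠ ⊥ := fun h => by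
      have h2 : (1 : G) ∈ X ⊓ Y := ⟨h1X, h1Y⟩
      rw [h, Submodule.mem_bot] at h2
      exact one_ne_zero h2
    have hS0 : X ⊔ Y ≠ ⊥ := fun h => hX0 (by
      rw [eq_bot_iff, ← h]
      exact le_sup_left)
    have h2 := submod A X Y
    have h3 := Submodule.finrank_sup_add_finrank_inf_eq X Y
    have h4 := hmin (X ⊔ Y) inferInstance hS0
    have h5 := hmin (X ⊓ Y) inferInstance hI0
    have h6 : finrank E (A * (X ⊓ Y) : Submodule E G) = finrank E (X ⊓ Y : Submodule E G) + m := by
      omega
    have h7 := hmin2 (X ⊓ Y) inferInstance hI0 h6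
    have h8 : X ⊓ Y = Y := Submodule.eq_of_le_of_finrank_le inf_le_right (by omega)
    have h9 : X ⊓ Y = X := Submodule.eq_of_le_of_finrank_le inf_le_left (by omega)
    have h10 : Y = X := h8.symm.trans h9
    have h11 : x ∈ Y := by rw [h10]; exact hx
    rw [hY, sc_eq] at h11
    obtain ⟨y, hy, rfl⟩ := h11
    rw [LinearMap.mulLeft_apply, mul_inv_cancel_left₀ hz0]
    exact hy
  have hX1 := mem_one_of_alg X h1X hmul
  have h12 : finrank E X = 1 := by
    rw [hX1]
    exact finrank_span_singleton one_ne_zero
  have h13 : (A * X : Submodule E G) = A := by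
    rw [hX1, ← Submodule.one_eq_span, mul_one]
  rw [h13, h12] at hXm
  have h14 := hmin B inferInstance hB
  omega

end Pool.Agent.QGT
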