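import Pool.Agent.QT.UltraK
import Pool.Agent.QT.Pts

/-! # Theorem T, step (1): the generic `k`-tuple and one more element in the ultrapower -/

set_option autoImplicit false

namespace Pool.Agent.QGT

open MvPolynomial Pool.Agent.GenTuple Pool.Agent.QT

theorem ultraT {K F : Type} [Field K] [CharZero K] [IsAlgClosed K] [Field F] [Algebra K F]
    {k r b d : ℕ} (t : Fin k → Fin r → F) (p : Fin b → F)
    (hcore : ∀ (E G : Type) [Field E] [Field G] [IsAlgClosed E] [Algebra K E] [Algebra K G]
      [Algebra E G] [Algebra F G] [IsScalarTower K E G] [IsScalarTower K F G] (_ : Disj K E F G)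
      (m : Fin k × Fin r → E) (n : Fin b → E) (_ : AlgebraicIndependent K m)
      (_ : ∀ (c0 : E) (c : Fin k → E), ∑ j, algebraMap E G (n j) * algebraMap F G (p j) ≠
        algebraMap E G c0 + ∑ i, algebraMap E G (c i) *
          ∑ j, algebraMap E G (m (i, j)) * algebraMap F G (t i j))
      (_ : ¬ Good E d (Fin.cons (∑ j, algebraMap E G (n j) * algebraMap F G (p j))
        fun i => ∑ j, algebraMap E G (m (i, j)) * algebraMap F G (t i j) : Fin (k + 1) → G)),
        False) :
    ∃ Φ : MvPolynomial (Fin k × Fin r) K, Φ ≠ 0 ∧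
      ∀ (m : Fin k × Fin r → K) (n : Fin b → K), eval m Φ ≠ 0 →
      (∀ (c0 : K) (c : Fin k → K), ∑ j, algebraMap K F (n j) * p j ≠
        algebraMap K F c0 + ∑ i, algebraMap K F (c i) *
          ∑ j, algebraMap K F (m (i, j)) * t i j) →
        Good K d (Fin.cons (∑ j, algebraMap K F (n j) * p j)
          fun i => ∑ j, algebraMap K F (m (i, j)) * t i j : Fin (k + 1) → F) := by
  classical
  by_contra hne
  let xx : (Fin k × Fin r → K) → Fin k → F := fun m i =>
    ∑ j, algebraMap K F (m (i, j)) * t i j
  let vv : (Fin k × Fin r → K) × (Fin b → K) → Fin (k + 1) → F := fun q =>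
    Fin.cons (∑ j, algebraMap K F (q.2 j) * p j) (xx q.1)
  let Out : (Fin k × Fin r → K) × (Fin b → K) → Prop := fun q =>
    ∀ (c0 : K) (c : Fin k → K), ∑ j, algebraMap K F (q.2 j) * p j ≠
        algebraMap K F c0 + ∑ i, algebraMap K F (c i) * xx q.1 i
  have hA : ∀ Φ : MvPolynomial (Fin k × Fin r) K, Φ ≠ 0 →
      ∃ (m : Fin k × Fin r → K) (n : Fin b → K), eval m Φ ≠ 0 ∧ Out (m, n) ∧
        ¬ Good K d (vv (m, n)) := by
    intro Φ hΦ
    by_contra h1
    refine hne ⟨Φ, hΦ, fun m n h2 h3 => ?_⟩
    by_contra h4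
    exact h1 ⟨m, n, h2, h3, h4⟩
  let B : Type := {q : (Fin k × Fin r → K) × (Fin b → K) // Out q ∧ ¬ Good K d (vv q)}
  -- the filter
  let Fi : Filter B :=
    { sets := {S | ∃ f : MvPolynomial (Fin k × Fin r) K, f ≠ 0 ∧ {b : B | eval b.1.1 f ≠ 0} ⊆ S}
      univ_sets := ⟨1, one_ne_zero, Set.subset_univ _⟩
      sets_of_superset := by
        rintro S S' ⟨f, hf, h1⟩ h2
        exact ⟨f, hf, h1.trans h2⟩
      inter_sets := by
        rintro S S' ⟨f, hf, h1⟩ ⟨g, hg, h2⟩
        refine ⟨f * g, mul_ne_zero hf hg, ?_⟩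
        intro b hb
        have hb' : eval b.1.1 (f * g) ≠ 0 := hb
        rw [map_mul] at hb'
        exact ⟨h1 (left_ne_zero_of_mul hb'), h2 (right_ne_zero_of_mul hb')⟩ }
  have hNe : Fi.NeBot := by
    rw [Filter.neBot_iff]
    intro hbot
    have h1 : (∅ : Set B) ∈ Fi := by rw [hbot]; exact Filter.mem_bot
    obtain ⟨f, hf, h2⟩ := h1
    obtain ⟨m, n, h3, h4, h5⟩ := hA f hf
    exact (h2 (show (⟨(m, n), h4, h5⟩ : B) ∈ {b : B | eval b.1.1 f ≠ 0} from h3))
  let U : Ultrafilter B := Ultrafilter.of Fi
  have hU : (U : Filter B) ≤ Fi := Ultrafilter.of_le Fi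
  have hUf : ∀ f : MvPolynomial (Fin k × Fin r) K, f ≠ 0 → ∀ᶠ b in (U : Filter B), eval b.1.1 f ≠ 0 :=
    fun f hf => hU ⟨f, hf, subset_rfl⟩
  let E := UP U K
  let G := UP U F
  let _ : Algebra E G := (UP.mapHom U K F).toAlgebra
  have hEG : ∀ f : B → K, algebraMap E G (cl U K f) = cl U F (fun b => algebraMap K F (f b)) :=
    fun _ => rfl
  have _ : IsScalarTower K E G := IsScalarTower.of_algebraMap_eq fun a => rfl
  have _ : IsScalarTower K F G := IsScalarTower.of_algebraMap_eq fun a => rfl
  -- disjointness
  have hdisj : Disj K E F G := by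
    intro κ _ f hf
    rw [Fintype.linearIndependent_iff] at hf ⊢
    intro g hg
    choose g' hg' using fun i => cl_surj U K (g i)
    have h1 : (∑ i, g i • algebraMap F G (f i)) =
        cl U F (fun b => ∑ i, algebraMap K F (g' i b) * f i) := by
      have h2 : (fun b => ∑ i, algebraMap K F (g' i b) * f i) =
          ∑ i, (fun b => algebraMap K F (g' i b)) * (fun _ => f i) := by
        funext b
        rw [Finset.sum_apply]
        rfl
      rw [h2, map_sum]
      refine Finset.sum_congr rfl fun i _ => ?_
      rw [Algebra.smul_def, map_mul, ← hg' i, hEG]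
      rfl
    rw [h1, cl_eq_zero] at hg
    intro i
    rw [← hg' i, cl_eq_zero]
    filter_upwards [hg] with b hb
    exact hf (fun i => g' i b) (by
      rw [← hb]
      exact Finset.sum_congr rfl fun i _ => by rw [Algebra.smul_def]) i
  -- the points
  let mS : Fin k × Fin r → E := fun j => cl U K (fun b => b.1.1 j)
  let nS : Fin b → E := fun j => cl U K (fun b => b.1.2 j)
  have hAI : AlgebraicIndependent K mS := by
    rw [algebraicIndependent_iff]
    intro f hf
    by_contra hf0
    have h1 : aeval mS f = cl U K (fun b => eval b.1.1 f) := by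
      have h2 : (fun b : B => eval b.1.1 f) =
          eval₂ (Pi.constRingHom B K) (fun a : Fin k × Fin r => fun b : B => b.1.1 a) f := by
        funext b
        have h3 := congrArg (fun g => g f) (MvPolynomial.ringHom_ext
          (f := (Pi.evalRingHom (fun _ : B => K) b).comp
            (eval₂Hom (Pi.constRingHom B K) (fun a : Fin k × Fin r => fun b : B => b.1.1 a)))
          (g := eval b.1.1) (by intro r; simp) (by intro i; simp))
        exact h3.symm
      rw [h2, ← coe_eval₂Hom, ← RingHom.comp_apply]
      have h4 := congrArg (fun g => g f) (MvPolynomial.ringHom_ext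
          (f := (cl U K).comp
            (eval₂Hom (Pi.constRingHom B K) (fun a : Fin k × Fin r => fun b : B => b.1.1 a)))
          (g := (aeval mS : MvPolynomial (Fin k × Fin r) K →ₐ[K] E).toRingHom) (by
            intro r
            simp only [RingHom.comp_apply, coe_eval₂Hom, eval₂_C, AlgHom.toRingHom_eq_coe,
              RingHom.coe_coe, aeval_C]
            rfl) (by
            intro i
            simp only [RingHom.comp_apply, coe_eval₂Hom, eval₂_X, AlgHom.toRingHom_eq_coe,
              RingHom.coe_coe, aeval_X]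
            rfl))
      exact h4.symm
    rw [h1, cl_eq_zero] at hf
    obtain ⟨b, h6, h7⟩ := (hf.and (hUf f hf0)).exists
    exact h7 h6
  have h0 : ∀ (l : ℕ) (t : Fin l → F) (g : B → Fin l → K),
      (∑ j, algebraMap E G (cl U K fun b => g b j) * algebraMap F G (t j)) =
        cl U F (fun b => ∑ j, algebraMap K F (g b j) * t j) := by
    intro l t g
    have h1 : (fun b : B => ∑ j, algebraMap K F (g b j) * t j) =
        ∑ j, (fun b : B => algebraMap K F (g b j)) * (fun _ => t j) := by
      funext b
      rw [Finset.sum_apply]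
      rfl
    rw [h1, map_sum]
    refine Finset.sum_congr rfl fun j _ => ?_
    rw [map_mul]
    rfl
  have hx : ∀ i, (∑ j, algebraMap E G (mS (i, j)) * algebraMap F G (t i j)) =
      cl U F (fun b : B => xx b.1.1 i) := fun i => h0 r (t i) fun b j => b.1.1 (i, j)
  have hy0 : (∑ j, algebraMap E G (nS j) * algebraMap F G (p j)) =
      cl U F (fun b : B => ∑ j, algebraMap K F (b.1.2 j) * p j) := h0 b p fun b => b.1.2
  have hn : ∀ (c0 : E) (c : Fin k → E), ∑ j, algebraMap E G (nS j) * algebraMap F G (p j) ≠
        algebraMap E G c0 + ∑ i, algebraMap E G (c i) *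
          ∑ j, algebraMap E G (mS (i, j)) * algebraMap F G (t i j) := by
    intro c0 c hc
    obtain ⟨c0', hc0⟩ := cl_surj U K c0
    choose c' hc' using fun i => cl_surj U K (c i)
    have h1 : algebraMap E G c0 + ∑ i, algebraMap E G (c i) *
          ∑ j, algebraMap E G (mS (i, j)) * algebraMap F G (t i j) =
        cl U F (fun b : B => algebraMap K F (c0' b) +
          ∑ i, algebraMap K F (c' i b) * xx b.1.1 i) := by
      have h2 : (fun b : B => algebraMap K F (c0' b) +
          ∑ i, algebraMap K F (c' i b) * xx b.1.1 i) =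
          (fun b : B => algebraMap K F (c0' b)) +
            ∑ i, (fun b : B => algebraMap K F (c' i b)) * (fun b : B => xx b.1.1 i) := by
        funext b
        rw [Pi.add_apply, Finset.sum_apply]
        rfl
      rw [h2, map_add, map_sum, ← hc0, hEG]
      congr 1
      refine Finset.sum_congr rfl fun i _ => ?_
      rw [map_mul, ← hc' i, hEG, hx i]
    rw [hy0, h1, ← sub_eq_zero, ← map_sub, cl_eq_zero] at hc
    obtain ⟨b, hb⟩ := hc.exists
    exact b.2.1 (c0' b) (fun i => c' i b) (sub_eq_zero.1 hb)
  -- the relation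
  have hrel : ¬ Good E d (Fin.cons (∑ j, algebraMap E G (nS j) * algebraMap F G (p j))
      fun i => ∑ j, algebraMap E G (mS (i, j)) * algebraMap F G (t i j) : Fin (k + 1) → G) := by
    have hB : ∀ b : B, ∃ P : MvPolynomial (Fin (k + 1)) K, P.totalDegree ≤ d ∧
        aeval (vv b.1) P = 0 ∧ P ≠ 0 := by
      intro b
      have h1 := b.2.2
      unfold Good at h1
      push Not at h1
      exact h1
    choose P hPd hP hP0 using hB
    let Q : MvPolynomial (Fin (k + 1)) E := ∑ α ∈ lowDeg (Fin (k + 1)) d,
      monomial α (cl U K (fun b => (P b).coeff α))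
    have hQc : ∀ α ∈ lowDeg (Fin (k + 1)) d, Q.coeff α = cl U K (fun b => (P b).coeff α) := by
      intro α hα
      simp only [Q]
      rw [coeff_sum, Finset.sum_eq_single α]
      · rw [coeff_monomial, if_pos rfl]
      · intro β _ hβ
        rw [coeff_monomial, if_neg hβ]
      · intro h3
        exact absurd hα h3
    have hQd : Q.totalDegree ≤ d := by
      refine (totalDegree_finsetSum _ _).trans (Finset.sup_le fun α hα => ?_)
      refine (totalDegree_monomial_le _ _).trans ?_
      rw [Finsupp.sum_fintype _ _ (fun _ => rfl)]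
      exact mem_lowDeg.1 hα
    have hy : (Fin.cons (∑ j, algebraMap E G (nS j) * algebraMap F G (p j))
        fun i => ∑ j, algebraMap E G (mS (i, j)) * algebraMap F G (t i j) : Fin (k + 1) → G) =
          fun l => cl U F (fun b : B => vv b.1 l) := by
      funext l
      refine Fin.cases ?_ (fun l => ?_) l
      · rw [Fin.cons_zero, hy0]
        rfl
      · rw [Fin.cons_succ, hx l]
        rfl
    intro hG
    refine absurd (hG Q hQd ?_) ?_
    · rw [hy, aeval_eq_sum d _ Q hQd]
      have h1 : ∀ α ∈ lowDeg (Fin (k + 1)) d,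
          Q.coeff α • mon (fun l => cl U F (fun b : B => vv b.1 l)) α =
          cl U F (fun b => (P b).coeff α • mon (vv b.1) α) := by
        intro α hα
        rw [mon_cl U (fun b : B => vv b.1), hQc α hα, Algebra.smul_def, hEG, ← map_mul]
        congr 1
        funext b
        rw [Algebra.smul_def]
        rfl
      rw [Finset.sum_congr rfl h1, ← map_sum, cl_eq_zero]
      refine Filter.Eventually.of_forall fun b => ?_
      rw [Finset.sum_apply, ← aeval_eq_sum d _ (P b) (hPd b)]
      exact hP b
    · intro hQ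
      have h1 : ∀ α ∈ lowDeg (Fin (k + 1)) d, ∀ᶠ b in (U : Filter B), (P b).coeff α = 0 := by
        intro α hα
        rw [← cl_eq_zero U K (fun b => (P b).coeff α), ← hQc α hα, hQ, coeff_zero]
      have h2 := (Filter.eventually_all_finset (lowDeg (Fin (k + 1)) d)).2 h1
      obtain ⟨b, hb⟩ := h2.exists
      apply hP0 b
      ext α
      rw [coeff_zero]
      by_cases hα : α ∈ (P b).support
      · refine hb α ?_
        rw [mem_lowDeg]
        have h2 := le_totalDegree hα
        rw [Finsupp.sum_fintype _ _ (fun _ => rfl)] at h2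
        exact h2.trans (hPd b)
      · exact notMem_support_iff.1 hα
  have hcl : IsAlgClosed E := UP_isAlgClosed U K
  exact hcore E G hdisj mS nS hAI hn hrel

end Pool.Agent.QGT
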